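import Pool.Agent.Helper72.LS.Arith

/-!
Every pair `(n, m)` lies on a segment.
-/

namespace Pool.Agent.Helper72.LS.P18

open Pool.Agent.Helper72.LS

theorem c2_zero : c2 0 = 0 := by norm_num [c2]

theorem c2_succ (x : ℤ) : c2 (x + 1) = c2 x + x := by
  have h1 := two_c2 (x + 1)
  have h2 := two_c2 x
  linarith

theorem Dj_zero (k : ℤ) : Dj k 0 = 0 := by
  unfold Dj
  rw [c2_zero]
  ring

theorem pos_h_succ (k h n m : ℤ) : pos k (h + 1) n m = pos k h n m - c2 (k + 1) := by
  unfold pos
  ring

theorem pos_k_pred (k h n m : ℤ) : pos k h n m = pos (k + 1) h n m - n + h * (k + 1) := by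
  unfold pos
  rw [c2_succ (k + 1)]
  ring

theorem Dj_k_pred (k δ : ℤ) : Dj k δ = Dj (k + 1) δ - δ := by
  unfold Dj
  ring

theorem chain (n m : ℕ) (hm : (m : ℤ) ≤ c2 n) (k : ℕ) : 1 ≤ k → ∀ e h δ : ℕ, δ < k → e ≤ h →
    n = h * k + e + δ → Dj k δ < pos k h n m →
    ∃ k δ h e : ℕ, 1 ≤ k ∧ δ < k ∧ 1 ≤ e ∧ e ≤ h ∧ n = h * k + e + δ ∧
      Dj k δ ≤ pos k h n m ∧ pos k h n m ≤ Dj k (δ + 1) := by
  induction k with
  | zero => intro h; omega
  | succ k ihk =>
    intro _ e
    induction e with
    | zero =>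
      intro h δ hδ _ hn hpos
      rcases Nat.eq_zero_or_pos k with hk0 | hk0
      · subst hk0
        exfalso
        have hδ0 : δ = 0 := by omega
        subst hδ0
        have hn' : (n : ℤ) = h := by
          have : n = h := by omega
          exact_mod_cast this
        have h1 : Dj ((0 + 1 : ℕ) : ℤ) ((0 : ℕ) : ℤ) = 0 := by
          push_cast
          exact Dj_zero _
        have h2 : pos ((0 + 1 : ℕ) : ℤ) h n m = m - c2 n := by
          unfold pos
          push_cast
          rw [hn']
          have : c2 2 = 1 := by norm_num [c2]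
          norm_num
          rw [this]
          ring
        rw [h1, h2] at hpos
        linarith
      · have hcast : ((k + 1 : ℕ) : ℤ) = (k : ℤ) + 1 := by push_cast; ring
        rw [hcast] at hpos
        have hnz : (n : ℤ) = h * (k + 1) + δ := by
          have : n = h * (k + 1) + δ := by omega
          exact_mod_cast this
        have e1 := pos_k_pred (k : ℤ) h n m
        have e2 := Dj_k_pred (k : ℤ) (δ : ℤ)
        have hlt : Dj (k : ℤ) δ < pos (k : ℤ) h n m := by
          rw [e1, e2, hnz]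
          rw [hnz] at hpos
          linarith
        rcases Nat.lt_or_ge δ k with hδk | hδk
        · exact ihk hk0 h h δ hδk (le_refl _) (by rw [hn]; ring) hlt
        · have hδe : δ = k := by omega
          subst hδe
          refine ihk hk0 h (h + 1) 0 hk0 (by omega) (by rw [hn]; ring) ?_
          have e3 := pos_h_succ (δ : ℤ) h n m
          have e4 := Dj_self (δ : ℤ)
          push_cast
          rw [Dj_zero, e3]
          linarith
    | succ e ihe =>
      intro h δ hδ heh hn hpos
      rcases le_or_gt (pos ((k + 1 : ℕ) : ℤ) h n m) (Dj ((k + 1 : ℕ) : ℤ) (δ + 1)) with hle | hgt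
      · exact ⟨k + 1, δ, h, e + 1, by omega, hδ, by omega, heh, hn, le_of_lt hpos, hle⟩
      · rcases Nat.lt_or_ge (δ + 1) (k + 1) with hδk | hδk
        · refine ihe h (δ + 1) hδk (by omega) (by omega) ?_
          push_cast at hgt ⊢
          exact hgt
        · have hδe : δ = k := by omega
          subst hδe
          refine ihe (h + 1) 0 (by omega) (by omega) (by rw [hn]; ring) ?_
          have e3 := pos_h_succ ((δ + 1 : ℕ) : ℤ) h n m
          have e4 := Dj_self ((δ + 1 : ℕ) : ℤ)
          push_cast at hgt e3 e4 ⊢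
          rw [Dj_zero, e3]
          linarith

theorem exists_segment (n m : ℕ) (hm1 : 1 ≤ m) (hm : (m : ℤ) ≤ c2 n) :
    ∃ k δ h e : ℕ, 1 ≤ k ∧ δ < k ∧ 1 ≤ e ∧ e ≤ h ∧ n = h * k + e + δ ∧
      Dj k δ ≤ pos k h n m ∧ pos k h n m ≤ Dj k (δ + 1) := by
  have hn : 1 ≤ n := by
    by_contra h
    have h0 : n = 0 := by omega
    subst h0
    have : c2 ((0 : ℕ) : ℤ) = 0 := by norm_num [c2]
    rw [this] at hm
    have : (1 : ℤ) ≤ m := by exact_mod_cast hm1
    linarith
  refine chain n m hm n hn 0 1 0 hn (by omega) (by omega) ?_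
  have h1 : (1 : ℤ) ≤ m := by exact_mod_cast hm1
  have h2 := two_c2 (n : ℤ)
  have h3 := two_c2 ((n : ℤ) + 1)
  push_cast
  rw [Dj_zero]
  unfold pos
  nlinarith

end Pool.Agent.Helper72.LS.P18
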