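import Pool.Agent.Helper72.LS.FormDef
import Pool.Agent.Helper65.LS.P17
import Pool.Agent.Helper82.LS.FormJoin
import Pool.Agent.Helper72.LS.P18

/-!
Layer 7: the graphs that attain the bound.
-/

namespace Pool.Agent.Helper72.LS

open Finset
open scoped Classical

/-! ## LS-13: the graphs that attain it -/

theorem form_bip (a b m : ℕ) (ha : 1 ≤ a) (hm : m ≤ a * b) :
    ∃ (W : Type) (_ : Fintype W) (Γ : SimpleGraph W), Fintype.card W = a + b ∧ em Γ = m ∧
      tm Γ = 0 ∧ PartiteForm Γ := 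
  Pool.Agent.Helper82.LS.form_bip a b m ha hm

theorem form_join {V : Type} [Fintype V] (G : SimpleGraph V) (hG : PartiteForm G) (s : ℕ)
    (hs : 1 ≤ s) :
    ∃ (W : Type) (_ : Fintype W) (Γ : SimpleGraph W), Fintype.card W = Fintype.card V + s ∧
      em Γ = em G + s * Fintype.card V ∧ tm Γ = tm G + s * em G ∧ PartiteForm Γ := 
  Pool.Agent.Helper82.LS.form_join G hG s hs

/-- the segment graphs -/
theorem form_segment (k δ h e n : ℕ) (m : ℤ) (hk : 1 ≤ k) (hδ : δ < k) (he : 1 ≤ e) (heh : e ≤ h)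
    (hn : n = h * k + e + δ) (h1 : Dj k δ ≤ pos k h n m) (h2 : pos k h n m ≤ Dj k (δ + 1)) :
    ∃ (W : Type) (_ : Fintype W) (Γ : SimpleGraph W), Fintype.card W = n ∧ em Γ = m ∧
      phG Γ k δ h = 0 ∧ PartiteForm Γ := 
  Pool.Agent.Helper65.LS.form_segment 
    (fun a b m ha hm => form_bip a b m ha hm) (fun G hG s hs => form_join G hG s hs)
    k δ h e n m hk hδ he heh hn h1 h2

/-- every `(n, m)` lies on a segment -/
theorem exists_segment (n m : ℕ) (hm1 : 1 ≤ m) (hm : (m : ℤ) ≤ c2 n) :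
    ∃ k δ h e : ℕ, 1 ≤ k ∧ δ < k ∧ 1 ≤ e ∧ e ≤ h ∧ n = h * k + e + δ ∧
      Dj k δ ≤ pos k h n m ∧ pos k h n m ≤ Dj k (δ + 1) := 
  Pool.Agent.Helper72.LS.P18.exists_segment n m hm1 hm

end Pool.Agent.Helper72.LS
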