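import Pool.Agent.Helper72.LS.L6
import Pool.Agent.Helper72.LS.L7

/-!
Layer 8: the r = 3 case.
-/

namespace Pool.Agent.Helper72.LS

open Finset
open scoped Classical

theorem PartiteForm.comap {V W : Type} {G : SimpleGraph V} (hG : PartiteForm G) (e : W ≃ V) :
    PartiteForm (G.comap e) := by
  obtain ⟨K, c, i, hc, h1, h2, h3⟩ := hG
  refine ⟨K, fun w => c (e w), i, ?_, ?_, ?_, ?_⟩
  · intro j
    obtain ⟨v, hv⟩ := hc j
    exact ⟨e.symm v, by simp [hv]⟩
  · intro u v huv
    exact h1 _ _ huv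
  · intro u v huv hc'
    exact h2 _ _ huv hc'
  · -- triangle-free
    intro s hs
    rw [SimpleGraph.is3Clique_iff] at hs
    obtain ⟨a, b, c', hab, hac, hbc, -⟩ := hs
    have ha : c (e a.1) = i := a.2
    have hb : c (e b.1) = i := b.2
    have hc' : c (e c'.1) = i := c'.2
    apply h3 {⟨e a.1, ha⟩, ⟨e b.1, hb⟩, ⟨e c'.1, hc'⟩}
    rw [SimpleGraph.is3Clique_iff]
    exact ⟨⟨e a.1, ha⟩, ⟨e b.1, hb⟩, ⟨e c'.1, hc'⟩, hab, hac, hbc, rfl⟩

theorem partiteForm_bot {V : Type} [Nonempty V] : PartiteForm (⊥ : SimpleGraph V) := by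
  refine ⟨1, fun _ => 0, 0, ?_, ?_, ?_, ?_⟩
  · intro j
    obtain ⟨v⟩ := ‹Nonempty V›
    exact ⟨v, (Subsingleton.elim _ _)⟩
  · intro u v h
    exact absurd rfl h
  · intro u v h
    exact absurd h (by simp)
  · intro s hs
    rw [SimpleGraph.is3Clique_iff] at hs
    obtain ⟨a, b, c, hab, -⟩ := hs
    simp at hab

/-- the number of copies of `K_r` in `G` -/
noncomputable def numK {V : Type} (r : ℕ) (G : SimpleGraph V) : ℕ :=
  {s : Finset V | G.IsNClique r s}.ncard

theorem em_eq_ncard {V : Type} [Fintype V] (G : SimpleGraph V) :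
    em G = (G.edgeSet.ncard : ℤ) := by
  unfold em
  rw [Set.ncard_eq_toFinset_card']
  rfl

theorem tm_eq_ncard {V : Type} [Fintype V] (G : SimpleGraph V) :
    tm G = (numK 3 G : ℤ) := by
  unfold tm numK
  rw [Set.ncard_eq_toFinset_card']
  congr 2
  ext s
  simp [SimpleGraph.mem_cliqueFinset_iff]

theorem numK_bot (n : ℕ) : numK 3 (⊥ : SimpleGraph (Fin n)) = 0 := by
  unfold numK
  rw [Set.ncard_eq_zero]
  ext s
  simp only [Set.mem_setOf_eq, Set.mem_empty_iff_false, iff_false]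
  intro hs
  rw [SimpleGraph.is3Clique_iff] at hs
  obtain ⟨a, b, c, hab, -⟩ := hs
  simp at hab

theorem main_aux (n m : ℕ) (hn : 1 ≤ n) (hm : m ≤ n.choose 2) :
    ∃ G : SimpleGraph (Fin n), G.edgeSet.ncard = m ∧ PartiteForm G ∧
      ∀ G' : SimpleGraph (Fin n), G'.edgeSet.ncard = m → numK 3 G ≤ numK 3 G' := by
  haveI : Nonempty (Fin n) := ⟨⟨0, by omega⟩⟩
  rcases Nat.eq_zero_or_pos m with hm0 | hm0
  · subst hm0
    refine ⟨⊥, by simp, partiteForm_bot, fun G' _ => ?_⟩
    exact le_of_eq_of_le (numK_bot n) (Nat.zero_le _)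
  · have hm' : (m : ℤ) ≤ c2 n := by
      have h1 := two_c2 (n : ℤ)
      have h2 : (n.choose 2 : ℤ) * 2 = (n : ℤ) * (n - 1) := by
        have h4 : n.choose 2 * 2 = n * (n - 1) := by
          rw [Nat.choose_two_right]
          exact Nat.div_mul_cancel (Nat.even_mul_pred_self n).two_dvd
        have h5 : ((n.choose 2 * 2 : ℕ) : ℤ) = ((n * (n - 1) : ℕ) : ℤ) := by rw [h4]
        rw [Nat.cast_mul, Nat.cast_mul, Nat.cast_sub hn] at h5
        push_cast at h5
        exact h5
      have h3 : (m : ℤ) ≤ (n.choose 2 : ℤ) := by exact_mod_cast hm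
      linarith
    obtain ⟨k, δ, h, e, hk, hδ, he, heh, hn', hp1, hp2⟩ := exists_segment n m hm0 hm'
    obtain ⟨W, instW, Γ, hW, hΓe, hΓp, hΓf⟩ :=
      form_segment k δ h e n m hk hδ he heh hn' hp1 hp2
    have eW : Fin n ≃ W := (Fintype.equivFinOfCardEq hW).symm
    have hem : em (Γ.comap eW) = em Γ :=
      (em_congr (Γ.comap eW) Γ eW (fun x y => Iff.rfl)).symm
    have htm : tm (Γ.comap eW) = tm Γ :=
      (tm_congr (Γ.comap eW) Γ eW (fun x y => Iff.rfl)).symm
    refine ⟨Γ.comap eW, ?_, hΓf.comap eW, ?_⟩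
    · have h1 := em_eq_ncard (Γ.comap eW)
      rw [hem, hΓe] at h1
      exact_mod_cast h1.symm
    · intro G' hG'
      have hem' : em G' = (m : ℤ) := by rw [em_eq_ncard, hG']
      have hst := star (k : ℤ) (by exact_mod_cast hk) (Fin n) G' h δ (by
        unfold psG
        rw [hem', Fintype.card_fin]
        refine ⟨by
          have : (δ : ℤ) < k := by exact_mod_cast hδ
          linarith, hp1, fun _ => hp2⟩)
      have h1 : phi (k : ℤ) δ h n m (tm G') ≤ 0 := by
        unfold phG at hst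
        rw [hem', Fintype.card_fin] at hst
        exact hst
      have h2 : phi (k : ℤ) δ h n m (tm Γ) = 0 := by
        unfold phG at hΓp
        rw [hΓe, hW] at hΓp
        exact hΓp
      have h3 : tm (Γ.comap eW) ≤ tm G' := by
        rw [htm]
        unfold phi at h1 h2
        linarith
      rw [tm_eq_ncard, tm_eq_ncard] at h3
      exact_mod_cast h3

end Pool.Agent.Helper72.LS
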