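import Pool.Agent.Helper72.LS.Defs

namespace Pool.Agent.Helper72.LS

theorem two_c2 (x : ℤ) : 2 * c2 x = x * (x - 1) := by
  unfold c2
  have h : (2 : ℤ) ∣ x * (x - 1) := by
    have := Int.even_mul_pred_self x
    exact this.two_dvd
  exact Int.mul_ediv_cancel' h

theorem six_c3 (x : ℤ) : 6 * c3 x = x * (x - 1) * (x - 2) := by
  unfold c3
  have h2 : (2 : ℤ) ∣ x * (x - 1) := (Int.even_mul_pred_self x).two_dvd
  have h3 : (3 : ℤ) ∣ x * (x - 1) * (x - 2) := by
    have h : x % 3 = 0 ∨ x % 3 = 1 ∨ x % 3 = 2 := by omega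
    rcases h with h | h | h
    · have : (3 : ℤ) ∣ x := by omega
      exact Dvd.dvd.mul_right (Dvd.dvd.mul_right this _) _
    · have : (3 : ℤ) ∣ x - 1 := by omega
      exact Dvd.dvd.mul_right (Dvd.dvd.mul_left this _) _
    · have : (3 : ℤ) ∣ x - 2 := by omega
      exact Dvd.dvd.mul_left this _
  have h6 : (6 : ℤ) ∣ x * (x - 1) * (x - 2) := by
    have : (2 : ℤ) ∣ x * (x - 1) * (x - 2) := Dvd.dvd.mul_right h2 _
    omega
  exact Int.mul_ediv_cancel' h6

theorem c2_nonneg (x : ℤ) : 0 ≤ c2 x := by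
  have h := two_c2 x
  have : 0 ≤ x * (x - 1) := by
    rcases le_or_gt x 0 with h0 | h0
    · nlinarith
    · nlinarith
  linarith

theorem c3_nonneg {x : ℤ} (hx : 0 ≤ x) : 0 ≤ c3 x := by
  have h := six_c3 x
  have : 0 ≤ x * (x - 1) * (x - 2) := by
    rcases lt_or_ge x 2 with h2 | h2
    · interval_cases x <;> norm_num
    · have h1 : 0 ≤ x * (x - 1) := by nlinarith
      exact mul_nonneg h1 (by linarith)
  linarith

theorem Dj_succ (k j : ℤ) : Dj k (j + 1) = Dj k j + (k - j) := by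
  unfold Dj
  have h1 := two_c2 (j + 1)
  have h2 := two_c2 j
  nlinarith

theorem Dj_sub (k j L : ℤ) : Dj k (j - L) = Dj k j - L * (k - j) - c2 (L + 1) := by
  unfold Dj
  have h1 := two_c2 (j - L)
  have h2 := two_c2 j
  have h3 := two_c2 (L + 1)
  nlinarith

theorem Dj_add (k j L : ℤ) : Dj k (j + L) = Dj k j + L * (k - j) - c2 L := by
  unfold Dj
  have h1 := two_c2 (j + L)
  have h2 := two_c2 j
  have h3 := two_c2 L
  nlinarith

theorem Dj_self (k : ℤ) : Dj k k = c2 (k + 1) := by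
  unfold Dj
  have h1 := two_c2 k
  have h2 := two_c2 (k + 1)
  nlinarith

theorem phi_sub (k j h n m t L : ℤ) : phi k (j - L) h n m t
    = phi k j h n m t + L * (pos k h n m - Dj k j) + (k - j) * c2 L + c3 (L + 1) := by
  have a1 := six_c3 n
  have a2 := two_c2 n
  have a3 := six_c3 (k + 1)
  have a4 := two_c2 (k + 1)
  have a5 := two_c2 (j + 1)
  have a6 := six_c3 (j + 1)
  have a7 := two_c2 (j - L + 1)
  have a8 := six_c3 (j - L + 1)
  have a9 := two_c2 j
  have a10 := two_c2 L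
  have a11 := six_c3 (L + 1)
  have key : 6 * (phi k (j - L) h n m t)
    = 6 * (phi k j h n m t + L * (pos k h n m - Dj k j) + (k - j) * c2 L + c3 (L + 1)) := by
    unfold phi al pos Dj
    linear_combination (3 * (-(n - k - (j - L) - 1)) + 3 * (n - k - j - 1) + 3 * L) * a2
      + 3 * ((j - L) * h - j * h + L * h) * a4
      + 3 * k * a7 - a8 - 3 * k * a5 + a6 - 3 * L * a9 - 3 * (k - j) * a10 - a11
  linarith

theorem phi_pred (k j h n m t : ℤ) : phi k (j - 1) h n m t
    = phi k j h n m t + (pos k h n m - Dj k j) := by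
  have h0 := phi_sub k j h n m t 1
  have h1 : c2 1 = 0 := by norm_num [c2]
  have h2 : c3 (1 + 1) = 0 := by norm_num [c3]
  rw [h0, h1, h2]; ring

theorem phi_succ (k j h n m t : ℤ) : phi k (j + 1) h n m t
    = phi k j h n m t - (pos k h n m - Dj k (j + 1)) := by
  have h0 := phi_pred k (j + 1) h n m t
  rw [show j + 1 - 1 = j by ring] at h0
  linarith

theorem c2_add_one (L : ℤ) : c2 (L + 1) = L ^ 2 - c2 L := by
  have a1 := two_c2 L
  have a2 := two_c2 (L + 1)
  nlinarith

theorem phi_add (k j h n m t L : ℤ) : phi k (j + L) h n m t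
    = phi k j h n m t - L * (pos k h n m - Dj k j) + (k - j) * c2 (L + 1) - c3 (L + 1) := by
  have h0 := phi_sub k (j + L) h n m t L
  rw [show j + L - L = j by ring] at h0
  have h1 := Dj_add k j L
  have e := c2_add_one L
  rw [h1] at h0
  rw [e]
  linear_combination (-1) * h0

/-- joining with `k` independent vertices -/
theorem phi_join (k j h n m t : ℤ) :
    phi k j (h + 1) (n + k) (m + k * n) (t + k * m) = phi k j h n m t := by
  have a1 := six_c3 n
  have a2 := two_c2 n
  have a3 := six_c3 (k + 1)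
  have a4 := two_c2 (k + 1)
  have b1 := six_c3 (n + k)
  have b2 := two_c2 (n + k)
  have key : 6 * phi k j (h + 1) (n + k) (m + k * n) (t + k * m) = 6 * phi k j h n m t := by
    unfold phi al
    linear_combination b1 - 3 * (n + k - k - j - 1) * b2 - a3 + 3 * j * a4
      - a1 + 3 * (n - k - j - 1) * a2
  linarith

theorem pos_join (k h n m : ℤ) : pos k (h + 1) (n + k) (m + k * n) = pos k h n m := by
  have a2 := two_c2 n
  have a4 := two_c2 (k + 1)
  have b2 := two_c2 (n + k)
  have key : 2 * pos k (h + 1) (n + k) (m + k * n) = 2 * pos k h n m := by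
    unfold pos
    linear_combination - b2 - a4 + a2
  linarith

/-- deleting a vertex -/
theorem phi_del (k δ h n m t d τ : ℤ) :
    phi k (δ - 1) h (n - 1) (m - d) (t - τ) = phi k δ h n m t
      - ((n - k - δ - 1) * d - τ
        - ((n - 1) * (n - δ - 1) - c2 (n - 1) + c2 δ - h * c2 (k + 1))) := by
  have a1 := six_c3 n
  have a2 := two_c2 n
  have a3 := six_c3 (n - 1)
  have a4 := two_c2 (n - 1)
  have a5 := two_c2 (δ - 1 + 1)
  have a6 := six_c3 (δ - 1 + 1)
  have a7 := two_c2 (δ + 1)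
  have a8 := six_c3 (δ + 1)
  have a9 := two_c2 δ
  have a10 := two_c2 (k + 1)
  have key : 6 * phi k (δ - 1) h (n - 1) (m - d) (t - τ) = 6 * (phi k δ h n m t
      - ((n - k - δ - 1) * d - τ
        - ((n - 1) * (n - δ - 1) - c2 (n - 1) + c2 δ - h * c2 (k + 1)))) := by
    unfold phi al
    linear_combination a3 - 3 * (n - 1 - k - (δ - 1) - 1) * a4 + 3 * k * a5 - a6
      - a1 + 3 * (n - k - δ - 1) * a2 - 3 * k * a7 + a8 + 3 * a4 - 3 * a9
  linarith

theorem pos_del (k h n m d : ℤ) :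
    pos k h (n - 1) (m - d) = pos k h n m + (n - k - d) - 1 := by
  have a2 := two_c2 n
  have a4 := two_c2 (n - 1)
  have key : 2 * pos k h (n - 1) (m - d) = 2 * (pos k h n m + (n - k - d) - 1) := by
    unfold pos
    linear_combination a2 - a4
  linarith

/-- adding a nonadjacent twin -/
theorem phi_clone (k δ h n m t d τ : ℤ) :
    phi k δ h (n + 1) (m + d) (t + τ) = phi k δ h n m t - (Dj k δ - pos k h n m)
      - ((n - δ - d) - ((n - k - δ - 1) * d - τ
        - ((n - 1) * (n - δ - 1) - c2 (n - 1) + c2 δ - h * c2 (k + 1)))) := by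
  have a1 := six_c3 n
  have a2 := two_c2 n
  have a3 := six_c3 (n + 1)
  have a4 := two_c2 (n - 1)
  have a5 := two_c2 (n + 1)
  have a9 := two_c2 δ
  have a10 := two_c2 (k + 1)
  have key : 6 * phi k δ h (n + 1) (m + d) (t + τ) = 6 * (phi k δ h n m t - (Dj k δ - pos k h n m)
      - ((n - δ - d) - ((n - k - δ - 1) * d - τ
        - ((n - 1) * (n - δ - 1) - c2 (n - 1) + c2 δ - h * c2 (k + 1))))) := by
    unfold phi al pos Dj
    linear_combination a3 - 3 * (n + 1 - k - δ - 1) * a5 - a1 + 3 * (n - k - δ - 1) * a2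
      - 3 * a4 + 3 * a2
  linarith

theorem pos_clone (k h n m d : ℤ) :
    pos k h (n + 1) (m + d) = pos k h n m - (n - k - d) := by
  have a2 := two_c2 n
  have a4 := two_c2 (n + 1)
  have key : 2 * pos k h (n + 1) (m + d) = 2 * (pos k h n m - (n - k - d)) := by
    unfold pos
    linear_combination a2 - a4
  linarith

/-- the position of the neighbourhood graph -/
theorem pos_nbr (k δ h n d τ : ℤ) :
    pos k (h - 1) d τ = Dj k (δ - (n - k - d)) + ((n - δ - d) - ((n - k - δ - 1) * d - τ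
        - ((n - 1) * (n - δ - 1) - c2 (n - 1) + c2 δ - h * c2 (k + 1)))) := by
  have a1 := two_c2 d
  have a2 := two_c2 (δ - (n - k - d))
  have a3 := two_c2 (n - 1)
  have a4 := two_c2 δ
  have a5 := two_c2 (k + 1)
  have key : 2 * pos k (h - 1) d τ = 2 * (Dj k (δ - (n - k - d)) + ((n - δ - d) -
      ((n - k - δ - 1) * d - τ
        - ((n - 1) * (n - δ - 1) - c2 (n - 1) + c2 δ - h * c2 (k + 1))))) := by
    unfold pos Dj
    linear_combination - a1 + a2 + a3 - a4 + a5
  linarith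

/-- the constant in the neighbourhood identity -/
theorem al_nbr (k δ h n d : ℤ) :
    al k (δ - (n - k - d)) (h - 1) d = k * (n - k - δ - 1) * d
      + (n - k - d) * ((n - 1) * (n - δ - 1) - c2 (n - 1) + c2 δ - h * c2 (k + 1))
      + al k δ h n := by
  have a1 := two_c2 d
  have a2 := six_c3 d
  have a3 := two_c2 (n - 1)
  have a4 := two_c2 δ
  have a5 := two_c2 (k + 1)
  have a6 := six_c3 (k + 1)
  have a7 := two_c2 (δ - (n - k - d) + 1)
  have a8 := six_c3 (δ - (n - k - d) + 1)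
  have a9 := two_c2 (δ + 1)
  have a10 := six_c3 (δ + 1)
  have a11 := two_c2 n
  have a12 := six_c3 n
  have key : 6 * al k (δ - (n - k - d)) (h - 1) d = 6 * (k * (n - k - δ - 1) * d
      + (n - k - d) * ((n - 1) * (n - δ - 1) - c2 (n - 1) + c2 δ - h * c2 (k + 1))
      + al k δ h n) := by
    unfold al
    linear_combination a2 - 3 * (d - k - (δ - (n - k - d)) - 1) * a1
      + (3 * (δ - (n - k - d)) * (h - 1) - 3 * δ * h + 3 * (n - k - d) * h) * a5 + a6
      + 3 * k * a7 - a8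
      + 3 * (n - k - d) * a3 - 3 * (n - k - d) * a4
      - a12 + 3 * (n - k - δ - 1) * a11 - 3 * k * a9 + a10
  linarith

/-- adding to the neighbourhood graph of a vertex of excess one a vertex nonadjacent to
`δ + a` vertices -/
theorem phi_Lz (k δ h n τ t3 a cB eB : ℤ) :
    phi k δ (h - 1) (n - k) (τ + (n - k - 1) - (δ + a))
      (t3 + (τ - ((δ + a) * (n - k - δ - 1) - cB) + eB))
    = phi k (δ - 1) (h - 1) (n - k - 1) τ t3
      + ((n - k - δ - 1) * (n - k - 1) - τ
        - ((n - 1) * (n - δ - 1) - c2 (n - 1) + c2 δ - h * c2 (k + 1))) + a * k - cB - eB := by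
  have a1 := two_c2 (n - k)
  have a2 := six_c3 (n - k)
  have a3 := two_c2 (n - 1)
  have a4 := two_c2 δ
  have a5 := two_c2 (k + 1)
  have a7 := two_c2 (δ + 1)
  have a8 := six_c3 (δ + 1)
  have a9 := two_c2 (δ - 1 + 1)
  have a10 := six_c3 (δ - 1 + 1)
  have a11 := two_c2 (n - k - 1)
  have a12 := six_c3 (n - k - 1)
  have key : 6 * phi k δ (h - 1) (n - k) (τ + (n - k - 1) - (δ + a))
      (t3 + (τ - ((δ + a) * (n - k - δ - 1) - cB) + eB))
    = 6 * (phi k (δ - 1) (h - 1) (n - k - 1) τ t3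
      + ((n - k - δ - 1) * (n - k - 1) - τ
        - ((n - 1) * (n - δ - 1) - c2 (n - 1) + c2 δ - h * c2 (k + 1))) + a * k - cB - eB) := by
    unfold phi al
    linear_combination a2 - 3 * (n - k - k - δ - 1) * a1
      + (3 * δ * (h - 1) - 3 * (δ - 1) * (h - 1) - 3 * h) * a5
      + 3 * k * a7 - a8 - 3 * k * a9 + a10
      - a12 + 3 * (n - k - 1 - k - (δ - 1) - 1) * a11 - 3 * a3 + 3 * a4
  linarith

theorem pos_Lz (k δ h n τ a : ℤ) :
    pos k (h - 1) (n - k) (τ + (n - k - 1) - (δ + a))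
    = Dj k δ + ((n - δ - (n - k - 1)) - ((n - k - δ - 1) * (n - k - 1) - τ
        - ((n - 1) * (n - δ - 1) - c2 (n - 1) + c2 δ - h * c2 (k + 1)))) - 1 - a := by
  have a1 := two_c2 (n - k)
  have a3 := two_c2 (n - 1)
  have a4 := two_c2 δ
  have a5 := two_c2 (k + 1)
  have key : 2 * pos k (h - 1) (n - k) (τ + (n - k - 1) - (δ + a))
    = 2 * (Dj k δ + ((n - δ - (n - k - 1)) - ((n - k - δ - 1) * (n - k - 1) - τ
        - ((n - 1) * (n - δ - 1) - c2 (n - 1) + c2 δ - h * c2 (k + 1)))) - 1 - a) := by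
    unfold pos Dj
    linear_combination - a1 + a3 + a5
  linarith

/-- relation with the cost -/
theorem phi_cost (k j h n m t : ℤ) :
    3 * phi k j h n m t = j * (k - j) * (k + 1 - j)
      + (k - 3 * j - 1) * (pos k h n m - Dj k j)
      - (n * (n - k) * (n - k - 1) + (4 * k + 2 - 3 * n) * m + 3 * t) := by
  have a1 := two_c2 n
  have a2 := six_c3 n
  have a3 := two_c2 (k + 1)
  have a4 := six_c3 (k + 1)
  have a5 := two_c2 (j + 1)
  have a6 := six_c3 (j + 1)
  have a7 := two_c2 j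
  have key : 6 * (3 * phi k j h n m t) = 6 * (j * (k - j) * (k + 1 - j)
      + (k - 3 * j - 1) * (pos k h n m - Dj k j)
      - (n * (n - k) * (n - k - 1) + (4 * k + 2 - 3 * n) * m + 3 * t)) := by
    unfold phi al pos Dj
    linear_combination 3 * a2 - 9 * (n - k - j - 1) * a1 - 3 * h * a4 + 9 * j * h * a3
      + 9 * k * a5 - 3 * a6 + 3 * (k - 3 * j - 1) * a1 + 3 * (k - 3 * j - 1) * h * a3
      - 3 * (k - 3 * j - 1) * a7
  linarith

/-! ### Valid indices -/

theorem Dj_mono {k i j : ℤ} (hij : i ≤ j) (hj : j ≤ k) : Dj k i ≤ Dj k j := by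
  have h := Dj_sub k j (j - i)
  rw [show j - (j - i) = i by ring] at h
  have h1 := c2_nonneg (j - i + 1)
  nlinarith [mul_nonneg (sub_nonneg.2 hij) (sub_nonneg.2 hj)]

theorem exists_valid_lt {k δ p : ℤ} (hδ : δ ≤ k - 1) (hp : p < Dj k δ) :
    ∃ L : ℤ, 1 ≤ L ∧ Valid k (δ - L) p ∧ p < Dj k (δ - L + 1) := by
  have hex : ∃ L : ℕ, Dj k (δ - (L : ℤ)) ≤ p := by
    refine ⟨(Dj k δ - p).toNat, ?_⟩
    have hL : (((Dj k δ - p).toNat : ℕ) : ℤ) = Dj k δ - p := Int.toNat_of_nonneg (by linarith)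
    rw [hL, Dj_sub]
    have h1 := c2_nonneg (Dj k δ - p + 1)
    nlinarith
  classical
  let L := Nat.find hex
  have hL : Dj k (δ - (L : ℤ)) ≤ p := Nat.find_spec hex
  have hL0 : L ≠ 0 := by
    intro h
    rw [h] at hL
    simp at hL
    linarith
  have hL1 : 1 ≤ L := Nat.one_le_iff_ne_zero.2 hL0
  have hlt : p < Dj k (δ - L + 1) := by
    by_contra hcon
    push Not at hcon
    have := Nat.find_min hex (m := L - 1) (by omega)
    apply this
    have e : δ - ((L - 1 : ℕ) : ℤ) = δ - L + 1 := by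
      push_cast [Nat.cast_sub hL1]; ring
    rw [e]; exact hcon
  refine ⟨L, by exact_mod_cast hL1, ⟨by have : (1 : ℤ) ≤ L := by exact_mod_cast hL1
                                        linarith, hL, fun _ => le_of_lt hlt⟩, hlt⟩

theorem exists_valid_ge {k δ p : ℤ} (hδ : δ ≤ k - 1) (hp : Dj k δ ≤ p) :
    ∃ L : ℤ, 0 ≤ L ∧ Valid k (δ + L) p := by
  by_contra hcon
  push Not at hcon
  have key : ∀ L : ℕ, δ + L ≤ k - 1 → Dj k (δ + L) ≤ p := by
    intro L
    induction L with
    | zero => intro _; simpa using hp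
    | succ L ih =>
      intro hL
      push_cast at hL
      have h1 := ih (by linarith)
      by_contra h2
      push Not at h2
      refine hcon L (by positivity) ⟨by linarith, h1, fun _ => ?_⟩
      have e : δ + ((L + 1 : ℕ) : ℤ) = δ + L + 1 := by push_cast; ring
      rw [e] at h2
      exact le_of_lt h2
  have h3 := key (k - 1 - δ).toNat (by
    rw [Int.toNat_of_nonneg (by linarith)]; linarith)
  rw [Int.toNat_of_nonneg (by linarith)] at h3
  refine hcon (k - 1 - δ) (by linarith) ⟨by linarith, h3, fun h => by linarith⟩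

theorem exists_valid {k : ℤ} (p : ℤ) : ∃ j, Valid k j p := by
  rcases lt_or_ge p (Dj k (k - 1)) with h | h
  · obtain ⟨L, _, hL, _⟩ := exists_valid_lt (le_refl (k - 1)) h
    exact ⟨_, hL⟩
  · obtain ⟨L, _, hL⟩ := exists_valid_ge (le_refl (k - 1)) h
    exact ⟨_, hL⟩

end Pool.Agent.Helper72.LS
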