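import Pool.Agent.Helper72.LS.Arith

/-!
Counting basics.
-/

namespace Pool.Agent.Helper72.LS

open Finset
open scoped Classical

theorem ad_symm {V : Type} (G : SimpleGraph V) (u v : V) : ad G u v = ad G v u := by
  unfold ad
  simp [G.adj_comm]

theorem ad_self {V : Type} (G : SimpleGraph V) (u : V) : ad G u u = 0 := by
  unfold ad
  simp

theorem ad_nonneg {V : Type} (G : SimpleGraph V) (u v : V) : 0 ≤ ad G u v := by
  unfold ad
  split_ifs <;> norm_num

theorem ad_le_one {V : Type} (G : SimpleGraph V) (u v : V) : ad G u v ≤ 1 := by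
  unfold ad
  split_ifs <;> norm_num

theorem ad_pos {V : Type} {G : SimpleGraph V} {u v : V} (h : G.Adj u v) : ad G u v = 1 := by
  unfold ad
  simp [h]

theorem ad_neg {V : Type} {G : SimpleGraph V} {u v : V} (h : ¬ G.Adj u v) : ad G u v = 0 := by
  unfold ad
  simp [h]

theorem ad_mul_self {V : Type} (G : SimpleGraph V) (u v : V) :
    ad G u v * ad G u v = ad G u v := by
  unfold ad
  split_ifs <;> norm_num

theorem two_em_aux {V : Type} [Fintype V] (G : SimpleGraph V) :
    2 * em G = ∑ x, ∑ y, ad G x y := by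
  have h := G.sum_degrees_eq_twice_card_edges
  unfold em
  have h' : ((2 * G.edgeFinset.card : ℕ) : ℤ) = ∑ v, (G.degree v : ℤ) := by
    rw [← h]; push_cast; rfl
  push_cast at h'
  rw [h']
  refine Finset.sum_congr rfl fun v _ => ?_
  unfold ad
  rw [Finset.sum_boole, ← SimpleGraph.card_neighborFinset_eq_degree]
  congr 2
  ext x
  simp

/-- ordered triangles -/
noncomputable def triO {V : Type} [Fintype V] (G : SimpleGraph V) : Finset (V × V × V) :=
  univ.filter (fun p => G.Adj p.1 p.2.1 ∧ G.Adj p.2.1 p.2.2 ∧ G.Adj p.1 p.2.2)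

theorem six_tm_aux {V : Type} [Fintype V] (G : SimpleGraph V) :
    6 * tm G = ∑ x, ∑ y, ∑ z, ad G x y * ad G y z * ad G x z := by
  have h1 : ∑ x, ∑ y, ∑ z, ad G x y * ad G y z * ad G x z = ((triO G).card : ℤ) := by
    unfold triO
    rw [Finset.card_filter]
    push_cast
    rw [Fintype.sum_prod_type]
    refine Finset.sum_congr rfl fun x _ => ?_
    rw [Fintype.sum_prod_type]
    refine Finset.sum_congr rfl fun y _ => ?_
    refine Finset.sum_congr rfl fun z _ => ?_
    unfold ad
    by_cases h1 : G.Adj x y <;> by_cases h2 : G.Adj y z <;> by_cases h3 : G.Adj x z <;>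
      simp [h1, h2, h3]
  rw [h1]
  have h2 : (triO G).card = ∑ s ∈ G.cliqueFinset 3,
      ((triO G).filter (fun p => ({p.1, p.2.1, p.2.2} : Finset V) = s)).card := by
    apply Finset.card_eq_sum_card_fiberwise
    intro p hp
    have hp' : p ∈ triO G := hp
    unfold triO at hp'
    rw [Finset.mem_filter] at hp'
    obtain ⟨_, ha, hb, hc⟩ := hp'
    have : ({p.1, p.2.1, p.2.2} : Finset V) ∈ G.cliqueFinset 3 := by
      rw [SimpleGraph.mem_cliqueFinset_iff, SimpleGraph.is3Clique_iff]
      exact ⟨p.1, p.2.1, p.2.2, ha, hc, hb, rfl⟩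
    exact this
  have h3 : ∀ s ∈ G.cliqueFinset 3,
      ((triO G).filter (fun p => ({p.1, p.2.1, p.2.2} : Finset V) = s)).card = 6 := by
    intro s hs
    rw [SimpleGraph.mem_cliqueFinset_iff, SimpleGraph.is3Clique_iff] at hs
    obtain ⟨a, b, c, hab, hac, hbc, rfl⟩ := hs
    have nab := hab.ne
    have nac := hac.ne
    have nbc := hbc.ne
    have : (triO G).filter (fun p => ({p.1, p.2.1, p.2.2} : Finset V) = {a, b, c})
        = {(a, b, c), (a, c, b), (b, a, c), (b, c, a), (c, a, b), (c, b, a)} := by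
      ext ⟨x, y, z⟩
      simp only [triO, Finset.mem_filter, Finset.mem_univ, true_and, Finset.mem_insert,
        Finset.mem_singleton, Prod.mk.injEq]
      constructor
      · rintro ⟨⟨h1, h2, h3⟩, h⟩
        have hx : x ∈ ({a, b, c} : Finset V) := by rw [← h]; simp
        have hy : y ∈ ({a, b, c} : Finset V) := by rw [← h]; simp
        have hz : z ∈ ({a, b, c} : Finset V) := by rw [← h]; simp
        simp only [Finset.mem_insert, Finset.mem_singleton] at hx hy hz
        have n1 := h1.ne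
        have n2 := h2.ne
        have n3 := h3.ne
        rcases hx with rfl | rfl | rfl <;> rcases hy with rfl | rfl | rfl <;>
          rcases hz with rfl | rfl | rfl <;> simp_all
      · rintro (⟨rfl, rfl, rfl⟩ | ⟨rfl, rfl, rfl⟩ | ⟨rfl, rfl, rfl⟩ | ⟨rfl, rfl, rfl⟩ |
          ⟨rfl, rfl, rfl⟩ | ⟨rfl, rfl, rfl⟩)
        · exact ⟨⟨hab, hbc, hac⟩, rfl⟩
        · refine ⟨⟨hac, hbc.symm, hab⟩, ?_⟩
          ext t; simp; tauto
        · refine ⟨⟨hab.symm, hac, hbc⟩, ?_⟩
          ext t; simp; tauto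
        · refine ⟨⟨hbc, hac.symm, hab.symm⟩, ?_⟩
          ext t; simp; tauto
        · refine ⟨⟨hac.symm, hab, hbc.symm⟩, ?_⟩
          ext t; simp; tauto
        · refine ⟨⟨hbc.symm, hab.symm, hac.symm⟩, ?_⟩
          ext t; simp; tauto
    rw [this]
    rw [Finset.card_insert_of_notMem, Finset.card_insert_of_notMem, Finset.card_insert_of_notMem,
      Finset.card_insert_of_notMem, Finset.card_insert_of_notMem, Finset.card_singleton]
    all_goals
      simp only [Finset.mem_insert, Finset.mem_singleton, Prod.mk.injEq, not_or, not_and]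
    all_goals
      simp [nab, nac, nbc, nab.symm, nac.symm, nbc.symm]
  rw [h2, Finset.sum_congr rfl h3]
  unfold tm
  simp
  ring

theorem ad_congr {V W : Type} (G : SimpleGraph V) (Γ : SimpleGraph W)
    (e : V ≃ W) (h : ∀ x y, Γ.Adj (e x) (e y) ↔ G.Adj x y) (x y : V) :
    ad Γ (e x) (e y) = ad G x y := by
  unfold ad
  simp [h]

theorem em_congr_aux {V W : Type} [Fintype V] [Fintype W] (G : SimpleGraph V)
    (Γ : SimpleGraph W) (e : V ≃ W) (h : ∀ x y, Γ.Adj (e x) (e y) ↔ G.Adj x y) :
    em Γ = em G := by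
  have h1 := two_em_aux G
  have h2 := two_em_aux Γ
  have h3 : ∑ x, ∑ y, ad Γ x y = ∑ x, ∑ y, ad G x y := by
    rw [← Equiv.sum_comp e]
    refine Finset.sum_congr rfl fun x _ => ?_
    rw [← Equiv.sum_comp e]
    refine Finset.sum_congr rfl fun y _ => ?_
    exact ad_congr G Γ e h x y
  linarith

theorem tm_congr_aux {V W : Type} [Fintype V] [Fintype W] (G : SimpleGraph V)
    (Γ : SimpleGraph W) (e : V ≃ W) (h : ∀ x y, Γ.Adj (e x) (e y) ↔ G.Adj x y) :
    tm Γ = tm G := by
  have h1 := six_tm_aux G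
  have h2 := six_tm_aux Γ
  have h3 : ∑ x, ∑ y, ∑ z, ad Γ x y * ad Γ y z * ad Γ x z
      = ∑ x, ∑ y, ∑ z, ad G x y * ad G y z * ad G x z := by
    rw [← Equiv.sum_comp e]
    refine Finset.sum_congr rfl fun x _ => ?_
    rw [← Equiv.sum_comp e]
    refine Finset.sum_congr rfl fun y _ => ?_
    rw [← Equiv.sum_comp e]
    refine Finset.sum_congr rfl fun z _ => ?_
    rw [ad_congr G Γ e h, ad_congr G Γ e h, ad_congr G Γ e h]
  linarith

theorem ad_induce {V : Type} (G : SimpleGraph V) (S : Set V) (x y : S) :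
    ad (G.induce S) x y = ad G x y := by
  unfold ad
  simp

theorem two_eI_aux {V : Type} [Fintype V] (G : SimpleGraph V) (S : Finset V) :
    2 * eI G S = ∑ x ∈ S, ∑ y ∈ S, ad G x y := by
  unfold eI
  rw [two_em_aux]
  simp only [ad_induce]
  have key : ∀ f : V → ℤ, ∑ x : (S : Set V), f x = ∑ x ∈ S, f x := by
    intro f
    exact Finset.sum_coe_sort S f
  rw [key (fun x => ∑ y : (S : Set V), ad G x y)]
  refine Finset.sum_congr rfl fun x _ => ?_
  exact key (fun y => ad G x y)

theorem six_tI_aux {V : Type} [Fintype V] (G : SimpleGraph V) (S : Finset V) :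
    6 * tI G S = ∑ x ∈ S, ∑ y ∈ S, ∑ z ∈ S, ad G x y * ad G y z * ad G x z := by
  unfold tI
  rw [six_tm_aux]
  simp only [ad_induce]
  have key : ∀ f : V → ℤ, ∑ x : (S : Set V), f x = ∑ x ∈ S, f x := by
    intro f
    exact Finset.sum_coe_sort S f
  rw [key (fun x => ∑ y : (S : Set V), ∑ z : (S : Set V), ad G x y * ad G y z * ad G x z)]
  refine Finset.sum_congr rfl fun x _ => ?_
  rw [key (fun y => ∑ z : (S : Set V), ad G x y * ad G y z * ad G x z)]
  refine Finset.sum_congr rfl fun y _ => ?_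
  exact key (fun z => ad G x y * ad G y z * ad G x z)

end Pool.Agent.Helper72.LS
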