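import Mathlib

/-!
Definitions for the r = 3 case of the clique density structure problem of Lovász and Simonovits.
-/

namespace Pool.Agent.Helper72.LS

open Finset
open scoped Classical

noncomputable section

/-- `x` choose `2`, for an integer `x` -/
def c2 (x : ℤ) : ℤ := x * (x - 1) / 2

/-- `x` choose `3`, for an integer `x` -/
def c3 (x : ℤ) : ℤ := x * (x - 1) * (x - 2) / 6

/-- the kinks -/
def Dj (k j : ℤ) : ℤ := k * j - c2 j

def al (k j h n : ℤ) : ℤ :=
  c3 n - (n - k - j - 1) * c2 n - j * k * n - h * c3 (k + 1) + j * h * c2 (k + 1)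
    + k * c2 (j + 1) - c3 (j + 1)

/-- the linear functional -/
def phi (k j h n m t : ℤ) : ℤ := al k j h n + (n - k - j - 1) * m - t

/-- the position -/
def pos (k h n m : ℤ) : ℤ := k * n - c2 n + m - h * c2 (k + 1)

/-- the index `j` is the right one at the position `p` -/
def Valid (k j p : ℤ) : Prop := j ≤ k - 1 ∧ Dj k j ≤ p ∧ (j < k - 1 → p ≤ Dj k (j + 1))

/-! ### Graph counts -/

section graph

variable {V : Type} [Fintype V] (G : SimpleGraph V)

/-- adjacency indicator -/
def ad (u v : V) : ℤ := if G.Adj u v then 1 else 0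

/-- number of edges -/
def em : ℤ := (G.edgeFinset.card : ℤ)

/-- number of triangles -/
def tm : ℤ := ((G.cliqueFinset 3).card : ℤ)

/-- degree -/
def dg (v : V) : ℤ := ∑ x, ad G v x

/-- codegree: number of common neighbours -/
def co (u v : V) : ℤ := ∑ x, ad G u x * ad G v x

/-- number of edges inside a set -/
def eI (S : Finset V) : ℤ := em (G.induce (S : Set V))

/-- number of triangles inside a set -/
def tI (S : Finset V) : ℤ := tm (G.induce (S : Set V))

/-- neighbourhood -/
def NG (w : V) : Finset V := univ.filter (fun x => G.Adj w x)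

/-- the set of non-neighbours, `w` itself included -/
def PH (w : V) : Finset V := univ.filter (fun x => ¬ G.Adj w x)

/-- neighbours of `w` that are not neighbours of `y` -/
def Qs (w y : V) : Finset V := univ.filter (fun x => G.Adj w x ∧ ¬ G.Adj y x)

/-- the functional of a graph -/
def phG (k j h : ℤ) : ℤ := phi k j h (Fintype.card V) (em G) (tm G)

/-- the position of a graph -/
def psG (k h : ℤ) : ℤ := pos k h (Fintype.card V) (em G)

/-- excess of a vertex -/
def Xv (k : ℤ) (v : V) : ℤ := Fintype.card V - k - dg G v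

def Yv (k δ h : ℤ) (v : V) : ℤ :=
  (Fintype.card V - k - δ - 1) * dg G v - eI G (NG G v)
    - ((Fintype.card V - 1) * (Fintype.card V - δ - 1) - c2 (Fintype.card V - 1) + c2 δ
        - h * c2 (k + 1))

def ev (k δ h : ℤ) (v : V) : ℤ := (Fintype.card V - δ - dg G v) - Yv G k δ h v

/-- minus the functional of the neighbourhood graph of `v` -/
def kv (k δ h : ℤ) (v : V) : ℤ :=
  - phi k (δ - Xv G k v) (h - 1) (dg G v) (eI G (NG G v)) (tI G (NG G v))

/-- the slack of a pair -/
def cc (k δ : ℤ) (u v : V) : ℤ := (Fintype.card V - k - δ - 1) - co G u v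

/-- twice the sum of the slacks of the edges inside the non-neighbourhood of `v` -/
def Cent2 (k δ : ℤ) (v : V) : ℤ := ∑ y ∈ PH G v, ∑ z ∈ PH G v, ad G y z * cc G k δ y z

/-- the number of non-neighbours of `v` that are non-neighbours of `x` -/
def Nx (v x : V) : ℤ := ∑ y ∈ PH G v, (1 - ad G x y)

/-- `θ = Σ_{w ∈ PH v} Y_w - k Y_v` -/
def th (k δ h : ℤ) (v : V) : ℤ := (∑ w ∈ PH G v, Yv G k δ h w) - k * Yv G k δ h v

end graph

end

end Pool.Agent.Helper72.LS
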