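import Pool.Agent.Helper72.LS.L2

/-!
The extremal counterexample.
-/

namespace Pool.Agent.Helper72.LS

open Finset
open scoped Classical

/-- an extremal counterexample -/
structure Ext (k δ h P : ℤ) {V : Type} [Fintype V] (G : SimpleGraph V) : Prop where
  hk : 1 ≤ k
  hδ0 : 0 ≤ δ
  hδ : δ ≤ k - 1
  hP : 1 ≤ P
  hr : Dj k δ ≤ psG G k h
  hr' : psG G k h < Dj k (δ + 1)
  val : phG G k δ h = P
  all : ∀ (W : Type) [Fintype W] (Γ : SimpleGraph W) (h' j : ℤ),
    Valid k j (psG Γ k h') → phG Γ k j h' ≤ P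
  small : ∀ (W : Type) [Fintype W] (Γ : SimpleGraph W) (h' j : ℤ),
    Fintype.card W < Fintype.card V → Valid k j (psG Γ k h') → phG Γ k j h' ≤ P - 1
  left : ∀ (Γ : SimpleGraph V) (h' j : ℤ),
    Valid k j (psG Γ k h') → psG Γ k h' < psG G k h → phG Γ k j h' ≤ P - 1

end Pool.Agent.Helper72.LS
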