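import Pool.Agent.Helper72.LS.L2

/-!
Bounds for the neighbourhood term.
-/

namespace Pool.Agent.Helper72.LS

open Finset
open scoped Classical

theorem ev_add_Yv {V : Type} [Fintype V] (G : SimpleGraph V) (k δ h : ℤ) (v : V) :
    ev G k δ h v + Yv G k δ h v = k - δ + Xv G k v := by
  unfold ev Xv
  ring

theorem mx_eq {V : Type} [Fintype V] (G : SimpleGraph V) (k δ : ℤ) (v : V) :
    (Fintype.card V : ℤ) - δ - dg G v = k - δ + Xv G k v := by
  unfold Xv
  ring

theorem Yv_succ {V : Type} [Fintype V] (G : SimpleGraph V) (k δ h : ℤ) (v : V) :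
    Yv G k (δ + 1) h v = Yv G k δ h v + (k - δ + Xv G k v) - 1 := by
  unfold Yv Xv
  have h1 := two_c2 (δ + 1)
  have h2 := two_c2 δ
  have h3 : c2 (δ + 1) = c2 δ + δ := by linarith
  rw [h3]
  ring

theorem ev_succ {V : Type} [Fintype V] (G : SimpleGraph V) (k δ h : ℤ) (v : V) :
    ev G k (δ + 1) h v = - Yv G k δ h v := by
  have h1 := ev_add_Yv G k (δ + 1) h v
  rw [Yv_succ] at h1
  linarith

theorem cc_succ {V : Type} [Fintype V] (G : SimpleGraph V) (k δ : ℤ) (u v : V) :
    cc G k (δ + 1) u v = cc G k δ u v - 1 := by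
  unfold cc
  ring

theorem dg_lt {V : Type} [Fintype V] (G : SimpleGraph V) (w : V) :
    dg G w < Fintype.card V := by
  rw [← card_NG]
  have : (NG G w).card < Fintype.card V := by
    apply Finset.card_lt_univ_of_notMem (x := w)
    simp [NG]
  exact_mod_cast this

theorem card_induce {V : Type} [Fintype V] (S : Finset V) :
    Fintype.card (S : Set V) = S.card := by
  simp

theorem card_induce_NG {V : Type} [Fintype V] (G : SimpleGraph V) (w : V) :
    (Fintype.card ((NG G w : Finset V) : Set V) : ℤ) = dg G w := by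
  rw [card_induce, card_NG]

/-- the functional of the neighbourhood graph -/
theorem phG_nbr {V : Type} [Fintype V] (G : SimpleGraph V) (w : V) (k j h : ℤ) :
    phG (G.induce ((NG G w : Finset V) : Set V)) k j h
      = phi k j h (dg G w) (eI G (NG G w)) (tI G (NG G w)) := by
  unfold phG
  rw [card_induce_NG]
  rfl

theorem psG_nbr {V : Type} [Fintype V] (G : SimpleGraph V) (w : V) (k h : ℤ) :
    psG (G.induce ((NG G w : Finset V) : Set V)) k h
      = pos k h (dg G w) (eI G (NG G w)) := by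
  unfold psG
  rw [card_induce_NG]
  rfl

theorem kv_ge {V : Type} [Fintype V] (G : SimpleGraph V) (w : V) (k δ h P : ℤ)
    (small : ∀ (W : Type) [Fintype W] (Γ : SimpleGraph W) (h' j : ℤ),
      Fintype.card W < Fintype.card V → Valid k j (psG Γ k h') → phG Γ k j h' ≤ P - 1)
    (hX : 1 ≤ k - δ + Xv G k w) (he : 0 ≤ ev G k δ h w) (hY : 0 ≤ Yv G k δ h w) :
    1 - P ≤ kv G k δ h w := by
  have hc : Fintype.card ((NG G w : Finset V) : Set V) < Fintype.card V := by
    have h1 := card_induce_NG G w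
    have h2 := dg_lt G w
    have : (Fintype.card ((NG G w : Finset V) : Set V) : ℤ) < Fintype.card V := by linarith
    exact_mod_cast this
  have h3 := small _ (G.induce ((NG G w : Finset V) : Set V)) (h - 1) (δ - Xv G k w) hc (by
    rw [psG_nbr, id_pos]
    have hsum := ev_add_Yv G k δ h w
    refine ⟨by linarith, by linarith, fun _ => ?_⟩
    rw [Dj_succ]
    linarith)
  rw [phG_nbr] at h3
  unfold kv
  linarith

theorem Cent2_nonneg {V : Type} [Fintype V] (G : SimpleGraph V) (k δ : ℤ) (w : V)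
    (H1 : ∀ u v, G.Adj u v → 0 ≤ cc G k δ u v) : 0 ≤ Cent2 G k δ w := by
  unfold Cent2
  refine Finset.sum_nonneg fun y _ => Finset.sum_nonneg fun z _ => ?_
  unfold ad
  split_ifs with h
  · have := H1 y z h
    linarith
  · simp

theorem th_ge {V : Type} [Fintype V] (G : SimpleGraph V) (w : V) (k δ h P : ℤ)
    (small : ∀ (W : Type) [Fintype W] (Γ : SimpleGraph W) (h' j : ℤ),
      Fintype.card W < Fintype.card V → Valid k j (psG Γ k h') → phG Γ k j h' ≤ P - 1)
    (H1 : ∀ u v, G.Adj u v → 0 ≤ cc G k δ u v)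
    (hX : 1 ≤ k - δ + Xv G k w) (he : 0 ≤ ev G k δ h w) (hY : 0 ≤ Yv G k δ h w) :
    phG G k δ h + (1 - P) ≤ th G k δ h w := by
  have h1 := id_one G k δ h w
  have h2 := Cent2_nonneg G k δ w H1
  have h3 := tI_nonneg G (PH G w)
  have h4 := kv_ge G w k δ h P small hX he hY
  linarith

theorem Nx_nonneg {V : Type} [Fintype V] (G : SimpleGraph V) (v x : V) : 0 ≤ Nx G v x := by
  unfold Nx
  refine Finset.sum_nonneg fun y _ => ?_
  have := ad_le_one G x y
  linarith

end Pool.Agent.Helper72.LS
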