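import Pool.Agent.Helper72.LS.Count

/-!
Layer 1: counting basics.
-/

namespace Pool.Agent.Helper72.LS

open Finset
open scoped Classical

theorem two_em {V : Type} [Fintype V] (G : SimpleGraph V) :
    2 * em G = ∑ x, ∑ y, ad G x y := two_em_aux G

theorem six_tm {V : Type} [Fintype V] (G : SimpleGraph V) :
    6 * tm G = ∑ x, ∑ y, ∑ z, ad G x y * ad G y z * ad G x z := six_tm_aux G

theorem em_congr {V W : Type} [Fintype V] [Fintype W] (G : SimpleGraph V) (Γ : SimpleGraph W)
    (e : V ≃ W) (h : ∀ x y, Γ.Adj (e x) (e y) ↔ G.Adj x y) : em Γ = em G :=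
  em_congr_aux G Γ e h

theorem tm_congr {V W : Type} [Fintype V] [Fintype W] (G : SimpleGraph V) (Γ : SimpleGraph W)
    (e : V ≃ W) (h : ∀ x y, Γ.Adj (e x) (e y) ↔ G.Adj x y) : tm Γ = tm G :=
  tm_congr_aux G Γ e h

theorem two_eI {V : Type} [Fintype V] (G : SimpleGraph V) (S : Finset V) :
    2 * eI G S = ∑ x ∈ S, ∑ y ∈ S, ad G x y := two_eI_aux G S

theorem six_tI {V : Type} [Fintype V] (G : SimpleGraph V) (S : Finset V) :
    6 * tI G S = ∑ x ∈ S, ∑ y ∈ S, ∑ z ∈ S, ad G x y * ad G y z * ad G x z :=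
  six_tI_aux G S

/-! more basic facts -/

theorem sum_NG {V : Type} [Fintype V] (G : SimpleGraph V) (w : V) (f : V → ℤ) :
    ∑ x ∈ NG G w, f x = ∑ x, ad G w x * f x := by
  unfold NG ad
  rw [Finset.sum_filter]
  refine Finset.sum_congr rfl fun x _ => ?_
  split_ifs <;> simp

theorem sum_PH {V : Type} [Fintype V] (G : SimpleGraph V) (w : V) (f : V → ℤ) :
    ∑ x ∈ PH G w, f x = ∑ x, (1 - ad G w x) * f x := by
  unfold PH ad
  rw [Finset.sum_filter]
  refine Finset.sum_congr rfl fun x _ => ?_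
  split_ifs <;> simp

theorem card_NG {V : Type} [Fintype V] (G : SimpleGraph V) (w : V) :
    ((NG G w).card : ℤ) = dg G w := by
  have h := sum_NG G w (fun _ => 1)
  simp at h
  rw [h]
  rfl

theorem card_PH {V : Type} [Fintype V] (G : SimpleGraph V) (w : V) :
    ((PH G w).card : ℤ) = Fintype.card V - dg G w := by
  have h := sum_PH G w (fun _ => 1)
  simp at h
  rw [h]
  rfl

theorem self_mem_PH {V : Type} [Fintype V] (G : SimpleGraph V) (w : V) : w ∈ PH G w := by
  simp [PH]

theorem mem_NG {V : Type} [Fintype V] {G : SimpleGraph V} {w x : V} :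
    x ∈ NG G w ↔ G.Adj w x := by
  simp [NG]

theorem mem_PH {V : Type} [Fintype V] {G : SimpleGraph V} {w x : V} :
    x ∈ PH G w ↔ ¬ G.Adj w x := by
  simp [PH]

theorem mem_Qs {V : Type} [Fintype V] {G : SimpleGraph V} {w y x : V} :
    x ∈ Qs G w y ↔ G.Adj w x ∧ ¬ G.Adj y x := by
  simp [Qs]

theorem em_nonneg {V : Type} [Fintype V] (G : SimpleGraph V) : 0 ≤ em G := by
  unfold em; positivity

theorem tm_nonneg {V : Type} [Fintype V] (G : SimpleGraph V) : 0 ≤ tm G := by
  unfold tm; positivity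

theorem eI_nonneg {V : Type} [Fintype V] (G : SimpleGraph V) (S : Finset V) : 0 ≤ eI G S :=
  em_nonneg _

theorem tI_nonneg {V : Type} [Fintype V] (G : SimpleGraph V) (S : Finset V) : 0 ≤ tI G S :=
  tm_nonneg _

theorem co_symm {V : Type} [Fintype V] (G : SimpleGraph V) (u v : V) : co G u v = co G v u := by
  unfold co
  exact Finset.sum_congr rfl fun x _ => mul_comm _ _

theorem cc_symm {V : Type} [Fintype V] (G : SimpleGraph V) (k δ : ℤ) (u v : V) :
    cc G k δ u v = cc G k δ v u := by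
  unfold cc
  rw [co_symm]

theorem two_eI_NG {V : Type} [Fintype V] (G : SimpleGraph V) (w : V) :
    2 * eI G (NG G w) = ∑ x, ∑ y, ad G w x * ad G w y * ad G x y := by
  rw [two_eI, sum_NG]
  refine Finset.sum_congr rfl fun x _ => ?_
  rw [sum_NG, Finset.mul_sum]
  refine Finset.sum_congr rfl fun y _ => ?_
  ring

theorem two_eI_PH {V : Type} [Fintype V] (G : SimpleGraph V) (w : V) :
    2 * eI G (PH G w) = ∑ x, ∑ y, (1 - ad G w x) * (1 - ad G w y) * ad G x y := by
  rw [two_eI, sum_PH]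
  refine Finset.sum_congr rfl fun x _ => ?_
  rw [sum_PH, Finset.mul_sum]
  refine Finset.sum_congr rfl fun y _ => ?_
  ring

theorem six_tI_NG {V : Type} [Fintype V] (G : SimpleGraph V) (w : V) :
    6 * tI G (NG G w) = ∑ x, ∑ y, ∑ z, ad G w x * ad G w y * ad G w z
      * (ad G x y * ad G y z * ad G x z) := by
  rw [six_tI, sum_NG]
  refine Finset.sum_congr rfl fun x _ => ?_
  rw [sum_NG, Finset.mul_sum]
  refine Finset.sum_congr rfl fun y _ => ?_
  rw [sum_NG, Finset.mul_sum, Finset.mul_sum]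
  refine Finset.sum_congr rfl fun z _ => ?_
  ring

theorem six_tI_PH {V : Type} [Fintype V] (G : SimpleGraph V) (w : V) :
    6 * tI G (PH G w) = ∑ x, ∑ y, ∑ z, (1 - ad G w x) * (1 - ad G w y) * (1 - ad G w z)
      * (ad G x y * ad G y z * ad G x z) := by
  rw [six_tI, sum_PH]
  refine Finset.sum_congr rfl fun x _ => ?_
  rw [sum_PH, Finset.mul_sum]
  refine Finset.sum_congr rfl fun y _ => ?_
  rw [sum_PH, Finset.mul_sum, Finset.mul_sum]
  refine Finset.sum_congr rfl fun z _ => ?_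
  ring

end Pool.Agent.Helper72.LS
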