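import Pool.Agent.Helper67.LS.P2

/-!
Adding vertices.
-/

namespace Pool.Agent.Helper72.LS.P3

open Finset
open scoped Classical
open Pool.Agent.Helper72.LS

theorem sum_sub {V : Type} [Fintype V] (S B : Finset V) (hB : B ⊆ S) (f : V → ℤ) :
    ∑ x ∈ (univ.filter (fun x : (S : Set V) => (x : V) ∉ B)), f x
      = ∑ x ∈ S, f x - ∑ x ∈ B, f x := by
  rw [Finset.sum_filter]
  have h1 : ∑ a : (S : Set V), (if (a : V) ∉ B then f a else 0)
      = ∑ a ∈ S, (if a ∉ B then f a else 0) :=
    Finset.sum_coe_sort S (fun a => if a ∉ B then f a else 0)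
  rw [h1, ← Finset.sum_filter]
  have h2 := Finset.sum_sdiff (f := f) hB
  have h3 : S.filter (fun a => a ∉ B) = S \ B := by
    ext x
    simp
  rw [h3]
  linarith

theorem op_add_vertex_in {V : Type} [Fintype V] (G : SimpleGraph V) (S B : Finset V)
    (hB : B ⊆ S) :
    ∃ Γ : SimpleGraph (Option (S : Set V)), em Γ = eI G S + (S.card - B.card) ∧
      tm Γ = tI G S + (eI G S - (∑ x ∈ B, ∑ y ∈ S, ad G x y) + eI G B) := by
  obtain ⟨Γ, h1, h2⟩ := Pool.Agent.Helper67.LS.op_add_vertex (G.induce (S : Set V))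
    (univ.filter (fun x : (S : Set V) => (x : V) ∉ B))
  refine ⟨Γ, ?_, ?_⟩
  · rw [h1]
    have h3 := sum_sub S B hB (fun _ => 1)
    simp only [Finset.sum_const, nsmul_eq_mul, mul_one] at h3
    rw [h3]
    rfl
  · rw [h2]
    have h4 := two_eI (G.induce (S : Set V)) (univ.filter (fun x : (S : Set V) => (x : V) ∉ B))
    have h5 : ∑ x ∈ (univ.filter (fun x : (S : Set V) => (x : V) ∉ B)),
        ∑ y ∈ (univ.filter (fun x : (S : Set V) => (x : V) ∉ B)),
          ad (G.induce (S : Set V)) x y
        = ∑ x ∈ (univ.filter (fun x : (S : Set V) => (x : V) ∉ B)),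
          (∑ y ∈ S, ad G x y - ∑ y ∈ B, ad G x y) := by
      refine Finset.sum_congr rfl fun x _ => ?_
      simp only [ad_induce]
      exact sum_sub S B hB (fun y => ad G x y)
    rw [h5, sum_sub S B hB (fun x => ∑ y ∈ S, ad G x y - ∑ y ∈ B, ad G x y)] at h4
    rw [Finset.sum_sub_distrib, Finset.sum_sub_distrib] at h4
    have h6 := two_eI G S
    have h7 := two_eI G B
    have h8 : ∑ x ∈ S, ∑ y ∈ B, ad G x y = ∑ x ∈ B, ∑ y ∈ S, ad G x y := by
      rw [Finset.sum_comm]
      refine Finset.sum_congr rfl fun x _ => Finset.sum_congr rfl fun y _ => ?_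
      exact ad_symm G y x
    have h9 : tm (G.induce (S : Set V)) = tI G S := rfl
    rw [h9]
    linarith

/-- the join with independent vertices, one pair missing -/
def joinG {V : Type} (G : SimpleGraph V) (z : V) (k : ℕ) (i0 : Fin k) :
    SimpleGraph (V ⊕ Fin k) where
  Adj x y := match x, y with
    | Sum.inl a, Sum.inl b => G.Adj a b
    | Sum.inl a, Sum.inr i => ¬ (a = z ∧ i = i0)
    | Sum.inr i, Sum.inl a => ¬ (a = z ∧ i = i0)
    | Sum.inr _, Sum.inr _ => False
  symm := ⟨fun x y h => by
    rcases x with a | i <;> rcases y with b | j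
    · exact G.adj_symm h
    · exact h
    · exact h
    · exact h⟩
  loopless := ⟨fun x h => by
    rcases x with a | i
    · exact G.irrefl h
    · exact h⟩

theorem op_join {V : Type} [Fintype V] (G : SimpleGraph V) (z : V) (k : ℕ) (hk : 1 ≤ k) :
    ∃ (W : Type) (_ : Fintype W) (Γ : SimpleGraph W),
      (Fintype.card W : ℤ) = Fintype.card V + k ∧
      em Γ = em G + k * Fintype.card V - 1 ∧
      tm Γ = tm G + k * em G - dg G z := by
  obtain ⟨i0⟩ : Nonempty (Fin k) := ⟨⟨0, hk⟩⟩
  obtain ⟨u, hu⟩ : ∃ u : V → Fin k → ℤ, u = fun a i => if a = z ∧ i = i0 then 0 else 1 :=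
    ⟨_, rfl⟩
  have h00 : ∀ a b, ad (joinG G z k i0) (Sum.inl a) (Sum.inl b) = ad G a b := by
    intro a b
    unfold ad
    exact if_congr Iff.rfl rfl rfl
  have h01 : ∀ a i, ad (joinG G z k i0) (Sum.inl a) (Sum.inr i) = u a i := by
    intro a i
    rw [hu]
    unfold ad
    by_cases h : a = z ∧ i = i0
    · rw [if_neg (fun h' => h' h)]
      simp [h]
    · rw [if_pos (show (joinG G z k i0).Adj (Sum.inl a) (Sum.inr i) from h)]
      simp only
      rw [if_neg h]
  have h10 : ∀ a i, ad (joinG G z k i0) (Sum.inr i) (Sum.inl a) = u a i := by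
    intro a i
    rw [ad_symm, h01]
  have h11 : ∀ i j, ad (joinG G z k i0) (Sum.inr i) (Sum.inr j) = 0 := by
    intro i j
    exact ad_neg (fun h => h)
  have hsq : ∀ a i, u a i = 1 - (if a = z then 1 else 0) * (if i = i0 then 1 else 0) := by
    intro a i
    rw [hu]
    by_cases h1 : a = z <;> by_cases h2 : i = i0 <;> simp [h1, h2]
  have hsumu : ∑ a, ∑ i, u a i = k * Fintype.card V - 1 := by
    simp only [hsq, Finset.sum_sub_distrib, ← Finset.mul_sum, ← Finset.sum_mul]
    simp
    ring
  have htri : ∀ i, ∑ a, ∑ b, ad G a b * u b i * u a i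
      = 2 * em G - (if i = i0 then 1 else 0) * (2 * dg G z) := by
    intro i
    have e1 : ∀ a b, ad G a b * u b i * u a i = ad G a b
        - (if i = i0 then 1 else 0) * ((if a = z then 1 else 0) * ad G a b)
        - (if i = i0 then 1 else 0) * ((if b = z then 1 else 0) * ad G a b) := by
      intro a b
      rw [hsq, hsq]
      by_cases ha : a = z
      · by_cases hb : b = z
        · rw [ha, hb, ad_self]; ring
        · rw [if_neg hb]
          split_ifs <;> ring
      · rw [if_neg ha]
        split_ifs <;> ring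
    simp only [e1, Finset.sum_sub_distrib, ← Finset.mul_sum]
    have e2 : ∑ a, (if a = z then (1 : ℤ) else 0) * ∑ b, ad G a b = dg G z := by
      simp [dg]
    have e3 : ∑ a, ∑ b, (if b = z then (1 : ℤ) else 0) * ad G a b = dg G z := by
      rw [Finset.sum_comm]
      simp only [← Finset.mul_sum]
      have : ∀ b, ∑ a, ad G a b = dg G b := by
        intro b
        unfold dg
        exact Finset.sum_congr rfl fun a _ => ad_symm G a b
      simp [this]
    have e4 : ∑ a, ∑ b, (if a = z then (1 : ℤ) else 0) * ad G a b = dg G z := by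
      rw [← e2]
      refine Finset.sum_congr rfl fun a _ => ?_
      rw [Finset.mul_sum]
    rw [e3, ← two_em]
    simp only [e2]
    ring
  refine ⟨V ⊕ Fin k, inferInstance, joinG G z k i0, ?_, ?_, ?_⟩
  · simp
  · have h := two_em (joinG G z k i0)
    rw [Fintype.sum_sum_type] at h
    simp only [Fintype.sum_sum_type, h00, h01, h10, h11, Finset.sum_add_distrib,
      Finset.sum_const_zero, add_zero] at h
    have e1 : ∑ i : Fin k, ∑ a, u a i = ∑ a, ∑ i, u a i := Finset.sum_comm
    rw [e1, hsumu, ← two_em] at h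
    linarith
  · have h := six_tm (joinG G z k i0)
    rw [Fintype.sum_sum_type] at h
    simp only [Fintype.sum_sum_type, h00, h01, h10, h11, Finset.sum_add_distrib,
      Finset.sum_const_zero, add_zero, mul_zero, zero_mul, zero_add] at h
    have f1 : ∑ a, ∑ b, ∑ i, ad G a b * u b i * u a i
        = k * (2 * em G) - 2 * dg G z := by
      have : ∑ a, ∑ b, ∑ i, ad G a b * u b i * u a i
          = ∑ i, ∑ a, ∑ b, ad G a b * u b i * u a i := by
        have g1 : ∀ a, ∑ b, ∑ i, ad G a b * u b i * u a i
            = ∑ i, ∑ b, ad G a b * u b i * u a i := fun a => Finset.sum_comm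
        simp only [g1]
        exact Finset.sum_comm
      rw [this]
      simp only [htri, Finset.sum_sub_distrib]
      simp
    have f2 : ∑ a, ∑ i, ∑ b, u a i * u b i * ad G a b = k * (2 * em G) - 2 * dg G z := by
      rw [← f1]
      refine Finset.sum_congr rfl fun a _ => ?_
      rw [Finset.sum_comm]
      refine Finset.sum_congr rfl fun b _ => Finset.sum_congr rfl fun i _ => ?_
      ring
    have f3 : ∑ i, ∑ a, ∑ b, u a i * ad G a b * u b i = k * (2 * em G) - 2 * dg G z := by
      rw [← f2, Finset.sum_comm]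
      refine Finset.sum_congr rfl fun a _ => Finset.sum_congr rfl fun i _ =>
        Finset.sum_congr rfl fun b _ => ?_
      ring
    rw [f1, f2, f3, ← six_tm] at h
    linarith

end Pool.Agent.Helper72.LS.P3
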