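import Pool.Agent.Helper72.LS.L1
import Pool.Agent.Helper43.LS.P4
import Pool.Agent.Helper67.LS.P2
import Pool.Agent.Helper83.LS.P7a
import Pool.Agent.Helper87.LS.P6
import Pool.Agent.Helper88.LS.IdK
import Pool.Agent.Helper51.LS.P1
import Pool.Agent.Helper2.LS.P7b
import Pool.Agent.Helper72.LS.P3

/-!
Layer 2: operations, identities around a vertex, local facts.
-/

namespace Pool.Agent.Helper72.LS

open Finset
open scoped Classical

/-! ## LS-2: changing one edge -/

theorem op_del_edge {V : Type} [Fintype V] (G : SimpleGraph V) {u v : V} (h : G.Adj u v) :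
    ∃ Γ : SimpleGraph V, em Γ = em G - 1 ∧ tm Γ = tm G - co G u v := 
  Pool.Agent.Helper51.LS.op_del_edge G h

theorem op_add_edge {V : Type} [Fintype V] (G : SimpleGraph V) {u v : V} (h : ¬ G.Adj u v)
    (huv : u ≠ v) :
    ∃ Γ : SimpleGraph V, em Γ = em G + 1 ∧ tm Γ = tm G + co G u v := 
  Pool.Agent.Helper51.LS.op_add_edge G h huv

/-- deleting an edge inside the subgraph induced on `S` -/
theorem op_del_edge_in {V : Type} [Fintype V] (G : SimpleGraph V) (S : Finset V) {u v : V}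
    (hu : u ∈ S) (hv : v ∈ S) (h : G.Adj u v) :
    ∃ Γ : SimpleGraph (S : Set V), em Γ = eI G S - 1 ∧
      tm Γ = tI G S - ∑ x ∈ S, ad G u x * ad G v x := 
  Pool.Agent.Helper51.LS.op_del_edge_in G S hu hv h

/-! ## LS-3: adding and deleting vertices -/

theorem op_add_vertex {V : Type} [Fintype V] (G : SimpleGraph V) (A : Finset V) :
    ∃ Γ : SimpleGraph (Option V), em Γ = em G + A.card ∧ tm Γ = tm G + eI G A := 
  Pool.Agent.Helper67.LS.op_add_vertex G A

theorem op_del_vertex {V : Type} [Fintype V] (G : SimpleGraph V) (v : V) :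
    ∃ Γ : SimpleGraph {x : V // x ≠ v}, em Γ = em G - dg G v ∧
      tm Γ = tm G - eI G (NG G v) := 
  Pool.Agent.Helper67.LS.op_del_vertex G v

/-- the subgraph induced on `S` and a new vertex whose non-neighbours in `S` are those of `B` -/
theorem op_add_vertex_in {V : Type} [Fintype V] (G : SimpleGraph V) (S B : Finset V)
    (hB : B ⊆ S) :
    ∃ Γ : SimpleGraph (Option (S : Set V)), em Γ = eI G S + (S.card - B.card) ∧
      tm Γ = tI G S + (eI G S - (∑ x ∈ B, ∑ y ∈ S, ad G x y) + eI G B) := 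
  Pool.Agent.Helper72.LS.P3.op_add_vertex_in G S B hB

/-- `k` new independent vertices joined to everything, except that one of them is not joined
to `z` -/
theorem op_join {V : Type} [Fintype V] (G : SimpleGraph V) (z : V) (k : ℕ) (hk : 1 ≤ k) :
    ∃ (W : Type) (_ : Fintype W) (Γ : SimpleGraph W),
      (Fintype.card W : ℤ) = Fintype.card V + k ∧
      em Γ = em G + k * Fintype.card V - 1 ∧
      tm Γ = tm G + k * em G - dg G z := 
  Pool.Agent.Helper72.LS.P3.op_join G z k hk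

/-! ## LS-4: the identities around a vertex -/

theorem id_pos {V : Type} [Fintype V] (G : SimpleGraph V) (k δ h : ℤ) (v : V) :
    pos k (h - 1) (dg G v) (eI G (NG G v)) = Dj k (δ - Xv G k v) + ev G k δ h v := 
  Pool.Agent.Helper43.LS.id_pos G k δ h v

theorem id_two {V : Type} [Fintype V] (G : SimpleGraph V) (k δ h : ℤ) (v : V) :
    ∑ w ∈ PH G v, ((Fintype.card V : ℤ) - δ - dg G w)
      = k * (Fintype.card V - δ - dg G v) + ev G k δ h v + (Dj k δ - psG G k h)
        - eI G (PH G v) := 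
  Pool.Agent.Helper43.LS.id_two G k δ h v

theorem id_one {V : Type} [Fintype V] (G : SimpleGraph V) (k δ h : ℤ) (v : V) :
    2 * th G k δ h v = 2 * phG G k δ h + Cent2 G k δ v + 2 * tI G (PH G v)
      + 2 * kv G k δ h v := 
  Pool.Agent.Helper43.LS.id_one G k δ h v

/-! ## LS-5 -/

theorem id_K {V : Type} [Fintype V] (G : SimpleGraph V) (k δ h : ℤ) (v : V) :
    2 * kv G k δ h v = 2 * (Xv G k v * Yv G k δ h v) - 2 * phG G k δ h + Cent2 G k δ v
      + 4 * tI G (PH G v) - 2 * (∑ x ∈ NG G v, Nx G v x * cc G k δ v x)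
      - 2 * (∑ y ∈ PH G v, eI G (Qs G v y)) := 
  Pool.Agent.Helper88.LS.id_K G k δ h v

theorem id_four {V : Type} [Fintype V] (G : SimpleGraph V) (k δ h : ℤ) (v : V) :
    (∑ x ∈ NG G v, Nx G v x) - eI G (PH G v) = (Dj k δ - psG G k h) + ev G k δ h v
      - Xv G k v * (Fintype.card V - δ - dg G v) := 
  Pool.Agent.Helper87.LS.id_four G k δ h v

/-! ## LS-6: the cost -/

theorem cost_nonneg {V : Type} [Fintype V] (G : SimpleGraph V) (k : ℤ) :
    0 ≤ (Fintype.card V : ℤ) * (Fintype.card V - k) * (Fintype.card V - k - 1)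
      + (4 * k + 2 - 3 * Fintype.card V) * em G + 3 * tm G := 
  Pool.Agent.Helper87.LS.cost_nonneg G k

/-! ## LS-7: local facts at a vertex `w` -/

theorem loc_union {V : Type} [Fintype V] (G : SimpleGraph V) (w y y' : V) :
    ((Qs G w y ∪ Qs G w y').card : ℤ) = dg G w - co G y y'
      + ∑ u ∈ PH G w, ad G y u * ad G y' u := 
  Pool.Agent.Helper83.LS.loc_union G w y y'

theorem loc_sdiff {V : Type} [Fintype V] (G : SimpleGraph V) (w x : V) :
    (((NG G w).filter (fun u => ¬ G.Adj x u)).card : ℤ) = dg G w - co G w x := 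
  Pool.Agent.Helper83.LS.loc_sdiff G w x

theorem loc_co_le {V : Type} [Fintype V] (G : SimpleGraph V) (w x y : V) :
    co G x y ≤ co G w x + ∑ u ∈ PH G w, ad G y u := 
  Pool.Agent.Helper83.LS.loc_co_le G w x y

theorem loc_deg_le {V : Type} [Fintype V] (G : SimpleGraph V) (w : V) {y y' : V}
    (hy : y ∈ PH G w) (hy' : y' ∈ PH G w) (hyy' : G.Adj y y') :
    (∑ u ∈ PH G w, ad G y u) + (∑ u ∈ PH G w, ad G y' u) ≤ eI G (PH G w) + 1 := 
  Pool.Agent.Helper2.LS.loc_deg_le G w hy hy' hyy'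

theorem loc_cent {V : Type} [Fintype V] (G : SimpleGraph V) (k δ : ℤ) (w : V)
    (H1 : ∀ u v, G.Adj u v → 0 ≤ cc G k δ u v) {y y' : V}
    (hy : y ∈ PH G w) (hy' : y' ∈ PH G w) (hyy' : G.Adj y y') :
    2 * cc G k δ y y' ≤ Cent2 G k δ w := 
  Pool.Agent.Helper2.LS.loc_cent G k δ w H1 hy hy' hyy'

theorem loc_sum {V : Type} [Fintype V] (G : SimpleGraph V) (k δ : ℤ) (w : V) :
    ∑ y ∈ PH G w, ∑ y' ∈ PH G w, ad G y y' * (cc G k δ y y'
      + ∑ u ∈ PH G w, ad G y u * ad G y' u) = Cent2 G k δ w + 6 * tI G (PH G w) := 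
  Pool.Agent.Helper83.LS.loc_sum G k δ w

theorem loc_eI_union {V : Type} [Fintype V] (G : SimpleGraph V) (A B : Finset V)
    (hAB : ∀ x ∈ A \ B, ∀ y ∈ B \ A, ¬ G.Adj x y) :
    eI G (A ∪ B) ≤ eI G A + eI G B := 
  Pool.Agent.Helper2.LS.loc_eI_union G A B hAB

end Pool.Agent.Helper72.LS
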