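import Pool.Agent.Helper72.LS.ExtDef
import Pool.Agent.Helper28.LS.P10
import Pool.Agent.Helper74.LS.P8
import Pool.Agent.Helper7.LS.P9

/-!
Layer 3: the extremal counterexample.
-/

namespace Pool.Agent.Helper72.LS

open Finset
open scoped Classical

/-! ## LS-8: the extremal graph -/

theorem exists_ext (k : ℤ) (hk : 1 ≤ k) (V : Type) [Fintype V] (G : SimpleGraph V) (h j : ℤ)
    (hv : Valid k j (psG G k h)) (hpos : 0 < phG G k j h) :
    ∃ (W : Type) (_ : Fintype W) (Γ : SimpleGraph W) (δ h' P : ℤ), Ext k δ h' P Γ := 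
  Pool.Agent.Helper74.LS.exists_ext k hk V G h j hv hpos

/-! ## LS-9: first consequences -/

theorem ext_H2 {k δ h P : ℤ} {V : Type} [Fintype V] {G : SimpleGraph V} (E : Ext k δ h P G)
    {u v : V} (huv : u ≠ v) (h0 : ¬ G.Adj u v) : cc G k δ u v ≤ 0 := 
  Pool.Agent.Helper7.LS.ext_H2 E huv h0

theorem ext_H1 {k δ h P : ℤ} {V : Type} [Fintype V] {G : SimpleGraph V} (E : Ext k δ h P G)
    {u v : V} (h0 : G.Adj u v) : 0 ≤ cc G k δ u v := 
  Pool.Agent.Helper7.LS.ext_H1 E h0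

theorem ext_H1' {k δ h P : ℤ} {V : Type} [Fintype V] {G : SimpleGraph V} (E : Ext k δ h P G)
    (hb : Dj k δ - psG G k h < 0) {u v : V} (h0 : G.Adj u v) : 1 ≤ cc G k δ u v := 
  Pool.Agent.Helper7.LS.ext_H1' E hb h0

/-- deletion of a vertex -/
theorem ext_del {k δ h P : ℤ} {V : Type} [Fintype V] {G : SimpleGraph V} (E : Ext k δ h P G)
    (v : V) {j : ℤ} (hv : Valid k j (psG G k h + Xv G k v - 1)) :
    phi k j h (Fintype.card V - 1) (em G - dg G v) (tm G - eI G (NG G v)) ≤ P - 1 := 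
  Pool.Agent.Helper7.LS.ext_del E v hv

theorem ext_del1 {k δ h P : ℤ} {V : Type} [Fintype V] {G : SimpleGraph V} (E : Ext k δ h P G)
    (v : V) (h0 : 0 ≤ k - δ + Xv G k v) (h1 : Xv G k v - (Dj k δ - psG G k h) ≤ 1) :
    1 ≤ Yv G k δ h v := 
  Pool.Agent.Helper7.LS.ext_del1 E v h0 h1

theorem ext_del2 {k δ h P : ℤ} {V : Type} [Fintype V] {G : SimpleGraph V} (E : Ext k δ h P G)
    (v : V) (h1 : 1 ≤ Xv G k v - (Dj k δ - psG G k h))
    (h2 : Xv G k v - (Dj k δ - psG G k h) ≤ k - δ + 1) :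
    2 - Xv G k v + (Dj k δ - psG G k h) ≤ Yv G k δ h v := 
  Pool.Agent.Helper7.LS.ext_del2 E v h1 h2

/-- adding a twin -/
theorem ext_clone {k δ h P : ℤ} {V : Type} [Fintype V] {G : SimpleGraph V} (E : Ext k δ h P G)
    (v : V) {j : ℤ} (hv : Valid k j (psG G k h - Xv G k v)) :
    phi k j h (Fintype.card V + 1) (em G + dg G v) (tm G + eI G (NG G v)) ≤ P := 
  Pool.Agent.Helper28.LS.ext_clone E v hv

theorem ext_clone1 {k δ h P : ℤ} {V : Type} [Fintype V] {G : SimpleGraph V} (E : Ext k δ h P G)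
    (v : V) (h0 : 0 ≤ k - δ + Xv G k v) (h1 : Xv G k v + (Dj k δ - psG G k h) ≤ 0) :
    0 ≤ ev G k δ h v := 
  Pool.Agent.Helper28.LS.ext_clone1 E v h0 h1

theorem ext_H3 {k δ h P : ℤ} {V : Type} [Fintype V] {G : SimpleGraph V} (E : Ext k δ h P G)
    (v : V) : 1 ≤ k - δ + Xv G k v := 
  Pool.Agent.Helper28.LS.ext_H3 E v

end Pool.Agent.Helper72.LS
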