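import Pool.Agent.Helper72.LS.P12
import Pool.Agent.Helper71.LS.P11
/-!
Layer 4: averaging inequality and its consequences.
-/

namespace Pool.Agent.Helper72.LS

open Finset
open scoped Classical

/-! ## LS-10: the averaging inequality -/

theorem mr_of_min {V : Type} [Fintype V] (G : SimpleGraph V) (k δ h : ℤ) (w : V)
    (hpos : ∀ u, 1 ≤ k - δ + Xv G k u)
    (hmin : ∀ u, ev G k δ h w * (k - δ + Xv G k u) ≤ ev G k δ h u * (k - δ + Xv G k w)) :
    (k - δ + Xv G k w) * th G k δ h w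
      ≤ Yv G k δ h w * (ev G k δ h w + (Dj k δ - psG G k h) - eI G (PH G w)) := 
  Pool.Agent.Helper71.LS.mr_of_min G k δ h w hpos hmin

theorem exists_min {V : Type} [Fintype V] [Nonempty V] (G : SimpleGraph V) (k δ h : ℤ)
    (hpos : ∀ u, 1 ≤ k - δ + Xv G k u) :
    ∃ w, ∀ u, ev G k δ h w * (k - δ + Xv G k u) ≤ ev G k δ h u * (k - δ + Xv G k w) := 
  Pool.Agent.Helper71.LS.exists_min G k δ h hpos

/-- positivity of the ratio -/
theorem ext_ev_pos {k δ h P : ℤ} {V : Type} [Fintype V] {G : SimpleGraph V} (E : Ext k δ h P G)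
    (w : V)
    (hMR : (k - δ + Xv G k w) * th G k δ h w
      ≤ Yv G k δ h w * (ev G k δ h w + (Dj k δ - psG G k h) - eI G (PH G w))) :
    1 ≤ ev G k δ h w := P12.ext_ev_pos E w hMR

/-- some vertex has excess at most one -/
theorem ext_mindeg {k δ h P : ℤ} {V : Type} [Fintype V] {G : SimpleGraph V} (E : Ext k δ h P G) :
    ∃ v, Xv G k v ≤ 1 := 
  Pool.Agent.Helper71.LS.ext_mindeg E

end Pool.Agent.Helper72.LS
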