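import Pool.Agent.Helper72.LS.P15

/-!
Layer 5: the main lemma.
-/

namespace Pool.Agent.Helper72.LS

open Finset
open scoped Classical

theorem loc_false_le {k δ h P : ℤ} {V : Type} [Fintype V] {G : SimpleGraph V} {w : V}
    (E : Loc k δ h P G w) (hX : Xv G k w ≤ 0) : False := P14.loc_false_le E hX

theorem loc_false_one {k δ h P : ℤ} {V : Type} [Fintype V] {G : SimpleGraph V} {w : V}
    (E : Loc k δ h P G w) (hX : Xv G k w = 1) : False := P15.loc_false_one E hX

end Pool.Agent.Helper72.LS
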