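import Pool.Agent.Helper72.LS.P13

/-!
Layer 5a: first bounds of the main lemma.
-/

namespace Pool.Agent.Helper72.LS

open Finset
open scoped Classical

theorem loc_kv {k δ h P : ℤ} {V : Type} [Fintype V] {G : SimpleGraph V} {w : V}
    (E : Loc k δ h P G w) : 1 - P ≤ kv G k δ h w := P13.loc_kv E

/-- the bound from an edge of the neighbourhood graph -/
theorem loc_kv_edge {k δ h P : ℤ} {V : Type} [Fintype V] {G : SimpleGraph V} {w : V}
    (E : Loc k δ h P G w) {x x' : V} (hx : G.Adj w x) (hx' : G.Adj w x') (hxx' : G.Adj x x') :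
    1 - P + (k - δ + Xv G k w - 1) - cc G k δ w x - cc G k δ w x' ≤ kv G k δ h w :=
  P13.loc_kv_edge E hx hx' hxx'

theorem loc_strict {k δ h P : ℤ} {V : Type} [Fintype V] {G : SimpleGraph V} {w : V}
    (E : Loc k δ h P G w) :
    th G k δ h w + 1 ≤ ev G k δ h w + (Dj k δ - psG G k h) - eI G (PH G w) :=
  P13.loc_strict E

end Pool.Agent.Helper72.LS
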