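import Pool.Agent.Helper72.LS.L4
import Pool.Agent.Helper72.LS.L5
import Pool.Agent.Helper72.LS.KvGe

/-!
Layer 6: the lower bound.
-/

namespace Pool.Agent.Helper72.LS

open Finset
open scoped Classical

theorem loc_false {k δ h P : ℤ} {V : Type} [Fintype V] {G : SimpleGraph V} {w : V}
    (E : Loc k δ h P G w) : False := by
  rcases lt_or_ge (Xv G k w) 1 with hX | hX
  · exact loc_false_le E (by linarith)
  · exact loc_false_one E (le_antisymm E.hX hX)

/-- if some vertex has `Y ≥ 1`, the minimising vertex does too -/
theorem Yv_pos_of_min {V : Type} [Fintype V] (G : SimpleGraph V) (k δ h : ℤ) (w z : V)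
    (hpos : ∀ u, 1 ≤ k - δ + Xv G k u)
    (hmin : ∀ u, ev G k δ h w * (k - δ + Xv G k u) ≤ ev G k δ h u * (k - δ + Xv G k w))
    (hz : 1 ≤ Yv G k δ h z) : 1 ≤ Yv G k δ h w := by
  have h1 := hmin z
  have h2 := ev_add_Yv G k δ h z
  have h3 := ev_add_Yv G k δ h w
  have h4 := hpos z
  have h5 := hpos w
  by_contra hcon
  push Not at hcon
  have h6 : k - δ + Xv G k w ≤ ev G k δ h w := by linarith
  have h7 : (k - δ + Xv G k w) * (k - δ + Xv G k z)
      ≤ ev G k δ h w * (k - δ + Xv G k z) := by
    apply mul_le_mul_of_nonneg_right h6; linarith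
  have h8 : ev G k δ h z * (k - δ + Xv G k w)
      ≤ ((k - δ + Xv G k z) - 1) * (k - δ + Xv G k w) := by
    apply mul_le_mul_of_nonneg_right _ (by linarith); linarith
  nlinarith

/-- nonnegativity of the sum of the `Nx` -/
theorem sum_Nx_nonneg {V : Type} [Fintype V] (G : SimpleGraph V) (v : V) :
    0 ≤ ∑ x ∈ NG G v, Nx G v x :=
  Finset.sum_nonneg fun x _ => Nx_nonneg G v x

theorem no_ext {k δ h P : ℤ} {V : Type} [Fintype V] {G : SimpleGraph V}
    (E : Ext k δ h P G) : False := by
  obtain ⟨v0, hv0⟩ := ext_mindeg E
  haveI : Nonempty V := ⟨v0⟩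
  have hpos : ∀ u, 1 ≤ k - δ + Xv G k u := fun u => ext_H3 E u
  have hb0 : Dj k δ - psG G k h ≤ 0 := by linarith [E.hr]
  have hbM : -(k - δ) < Dj k δ - psG G k h := by
    have := E.hr'
    rw [Dj_succ] at this
    linarith
  by_cases hA : ∃ z, 1 ≤ Yv G k δ h z
  · -- case A
    obtain ⟨z, hz⟩ := hA
    obtain ⟨w, hmin⟩ := exists_min G k δ h hpos
    have hMR := mr_of_min G k δ h w hpos hmin
    have he := ext_ev_pos E w hMR
    have hY := Yv_pos_of_min G k δ h w z hpos hmin hz
    have hth := th_ge G w k δ h P E.small (fun u v => ext_H1 E) (hpos w) (by linarith)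
      (by linarith)
    rw [E.val] at hth
    have hsum := ev_add_Yv G k δ h w
    have hw := hpos w
    have hq := sum_Nx_nonneg G w
    have h4 := id_four G k δ h w
    rw [mx_eq G k δ w] at h4
    set m := eI G (PH G w) with hm
    set b := Dj k δ - psG G k h with hb
    set X := Xv G k w with hX
    set e := ev G k δ h w with hE
    set Y := Yv G k δ h w with hYd
    have hpos2 : 1 ≤ e + b - m := by
      by_contra hcon
      push Not at hcon
      have : Y * (e + b - m) ≤ 0 := by
        apply mul_nonpos_of_nonneg_of_nonpos <;> linarith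
      have h6 : (k - δ + X) * 1 ≤ (k - δ + X) * th G k δ h w := by
        apply mul_le_mul_of_nonneg_left _ (by linarith)
        linarith
      linarith
    have hX1 : X ≤ 1 := by
      by_contra hcon
      push Not at hcon
      have h7 : k - δ + X = e + Y := by linarith
      rw [h7] at h4
      nlinarith [mul_nonneg (by linarith : (0:ℤ) ≤ X - 2) (by linarith : (0:ℤ) ≤ e),
        mul_nonneg (by linarith : (0:ℤ) ≤ X - 2) (by linarith : (0:ℤ) ≤ Y)]
    exact loc_false (k := k) (δ := δ) (h := h) (P := P) (G := G) (w := w)
      { hk := E.hk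
        hδ0 := E.hδ0
        hδ := E.hδ
        small := E.small
        H1 := fun u v => ext_H1 E
        H2 := fun u v => ext_H2 E
        val := by rw [E.val]
        val' := by rw [E.val]; linarith
        hX0 := hpos w
        hX := hX1
        he := he
        hY := hY
        hY' := by linarith
        hMR := hMR }
  · -- case B
    push Not at hA
    have hY0 : ∀ u, Yv G k δ h u ≤ 0 := fun u => by have := hA u; linarith
    have hX2 : ∀ u, 2 ≤ Xv G k u - (Dj k δ - psG G k h) := by
      intro u
      by_contra hcon
      push Not at hcon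
      have := ext_del1 E u (by linarith [hpos u]) (by linarith)
      linarith [hY0 u]
    have hbneg : Dj k δ - psG G k h < 0 := by linarith [hX2 v0]
    have hδ1 : δ + 1 ≤ k - 1 := by linarith
    have hpos' : ∀ u, 1 ≤ k - (δ + 1) + Xv G k u := by
      intro u
      have := hX2 u
      linarith
    obtain ⟨w, hmin⟩ := exists_min G k (δ + 1) h hpos'
    have hMR := mr_of_min G k (δ + 1) h w hpos' hmin
    have hval : phG G k (δ + 1) h = P + (Dj k (δ + 1) - psG G k h) := by
      have h1 := phi_succ k δ h (Fintype.card V) (em G) (tm G)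
      have h2 := E.val
      unfold phG at h2 ⊢
      rw [h1, h2]
      unfold psG
      ring
    have hH1 : ∀ u v, G.Adj u v → 0 ≤ cc G k (δ + 1) u v := by
      intro u v huv
      rw [cc_succ]
      have := ext_H1' E hbneg huv
      linarith
    have hH2 : ∀ u v, u ≠ v → ¬ G.Adj u v → cc G k (δ + 1) u v ≤ 0 := by
      intro u v huv hn
      rw [cc_succ]
      have := ext_H2 E huv hn
      linarith
    have hDs := Dj_succ k δ
    have hv0Y : 1 ≤ Yv G k (δ + 1) h v0 := by
      have h1 := ext_del2 E v0 (by linarith [hX2 v0]) (by linarith)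
      rw [Yv_succ]
      linarith
    have hY := Yv_pos_of_min G k (δ + 1) h w v0 hpos' hmin hv0Y
    have he0 : 0 ≤ ev G k (δ + 1) h w := by
      rw [ev_succ]
      linarith [hY0 w]
    have hth := th_ge G w k (δ + 1) h P E.small hH1 (hpos' w) he0 (by linarith)
    rw [hval] at hth
    have hsum := ev_add_Yv G k (δ + 1) h w
    have hw := hpos' w
    have hq := sum_Nx_nonneg G w
    have h4 := id_four G k (δ + 1) h w
    rw [mx_eq G k (δ + 1) w] at h4
    have hYbig : Xv G k w ≤ (Dj k (δ + 1) - psG G k h) + 1 →
        (Dj k (δ + 1) - psG G k h) + 1 ≤ Yv G k (δ + 1) h w := by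
      intro hle
      have h1 := ext_del2 E w (by linarith [hX2 w]) (by linarith)
      rw [Yv_succ]
      linarith
    have hbp : 1 ≤ Dj k (δ + 1) - psG G k h := by linarith
    have hm0 := eI_nonneg G (PH G w)
    set m := eI G (PH G w) with hm
    set b := Dj k (δ + 1) - psG G k h with hb
    set X := Xv G k w with hX
    set e := ev G k (δ + 1) h w with hE
    set Y := Yv G k (δ + 1) h w with hYd
    have hth1 : b + 1 ≤ th G k (δ + 1) h w := by linarith
    have hpos2 : 1 ≤ e + b - m := by
      by_contra hcon
      push Not at hcon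
      have : Y * (e + b - m) ≤ 0 := by
        apply mul_nonpos_of_nonneg_of_nonpos <;> linarith
      have h6 : (k - (δ + 1) + X) * 1 ≤ (k - (δ + 1) + X) * th G k (δ + 1) h w := by
        apply mul_le_mul_of_nonneg_left _ (by linarith)
        linarith
      linarith
    have he1 : 1 ≤ e := by
      by_contra hcon
      have e0 : e = 0 := by linarith
      have h7 : k - (δ + 1) + X = Y := by linarith
      rw [h7, e0] at hMR
      have h8 : Y * (b + 1) ≤ Y * th G k (δ + 1) h w := by
        apply mul_le_mul_of_nonneg_left hth1 (by linarith)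
      have h9 : Y * (0 + b - m) ≤ Y * b := by
        apply mul_le_mul_of_nonneg_left _ (by linarith)
        linarith
      nlinarith
    have hX1 : X ≤ 1 := by
      by_contra hcon
      push Not at hcon
      have h7 : k - (δ + 1) + X = e + Y := by linarith
      rw [h7] at h4
      have h8 : (X - 2) * e + X * Y ≤ 2 * b - 1 := by nlinarith
      rcases le_or_gt X (b + 1) with h9 | h9
      · have h10 := hYbig h9
        have h11 : 2 * (b + 1) ≤ X * Y := by nlinarith
        have h12 : 0 ≤ (X - 2) * e := mul_nonneg (by linarith) (by linarith)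
        linarith
      · have h11 : X - 2 ≤ (X - 2) * e := by nlinarith
        have h12 : X ≤ X * Y := by nlinarith
        linarith
    exact loc_false (k := k) (δ := δ + 1) (h := h) (P := P) (G := G) (w := w)
      { hk := E.hk
        hδ0 := by linarith [E.hδ0]
        hδ := hδ1
        small := E.small
        H1 := hH1
        H2 := hH2
        val := by rw [hval]; linarith
        val' := by rw [hval]
        hX0 := hpos' w
        hX := hX1
        he := he1
        hY := hY
        hY' := hYbig (by linarith)
        hMR := hMR }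

theorem star (k : ℤ) (hk : 1 ≤ k) (V : Type) [Fintype V] (G : SimpleGraph V) (h j : ℤ)
    (hv : Valid k j (psG G k h)) : phG G k j h ≤ 0 := by
  by_contra hcon
  push Not at hcon
  obtain ⟨W, _, Γ, δ, h', P, E⟩ := exists_ext k hk V G h j hv hcon
  exact no_ext E

end Pool.Agent.Helper72.LS
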