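import Pool.Agent.Helper72.LS.L2

/-!
Hypotheses of the main lemma.
-/

namespace Pool.Agent.Helper72.LS

open Finset
open scoped Classical

/-- hypotheses of the main lemma -/
structure Loc (k δ h P : ℤ) {V : Type} [Fintype V] (G : SimpleGraph V) (w : V) : Prop where
  hk : 1 ≤ k
  hδ0 : 0 ≤ δ
  hδ : δ ≤ k - 1
  small : ∀ (W : Type) [Fintype W] (Γ : SimpleGraph W) (h' j : ℤ),
    Fintype.card W < Fintype.card V → Valid k j (psG Γ k h') → phG Γ k j h' ≤ P - 1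
  H1 : ∀ u v, G.Adj u v → 0 ≤ cc G k δ u v
  H2 : ∀ u v, u ≠ v → ¬ G.Adj u v → cc G k δ u v ≤ 0
  val : P ≤ phG G k δ h
  val' : P + (Dj k δ - psG G k h) ≤ phG G k δ h
  hX0 : 1 ≤ k - δ + Xv G k w
  hX : Xv G k w ≤ 1
  he : 1 ≤ ev G k δ h w
  hY : 1 ≤ Yv G k δ h w
  hY' : (Dj k δ - psG G k h) + 1 ≤ Yv G k δ h w
  hMR : (k - δ + Xv G k w) * th G k δ h w
      ≤ Yv G k δ h w * (ev G k δ h w + (Dj k δ - psG G k h) - eI G (PH G w))

end Pool.Agent.Helper72.LS
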