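import Pool.Agent.Helper72.LS.L3
import Pool.Agent.Helper72.LS.KvGe

/-!
Positivity of the ratio.
-/

namespace Pool.Agent.Helper72.LS.P12

open Finset
open scoped Classical
open Pool.Agent.Helper72.LS

theorem arith_os {X a K L η : ℤ} (hX : 1 ≤ X) (ha : X + 1 ≤ a) (hK : 1 ≤ K) (hL : 1 ≤ L)
    (hη : 1 ≤ η) (h1 : η ≤ K * X) (h2 : c2 K < X) :
    L * η - a * c2 L - c3 (L + 1) ≤ 2 * η + X * a := by
  have hc3 : 0 ≤ c3 (L + 1) := c3_nonneg (by linarith)
  have hc2 : 0 ≤ c2 L := c2_nonneg L
  rcases le_or_gt L 2 with hL2 | hL2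
  · have : (L - 2) * η ≤ 0 := mul_nonpos_of_nonpos_of_nonneg (by linarith) (by linarith)
    have h3 : 0 ≤ a * c2 L := mul_nonneg (by linarith) hc2
    have h4 : 0 ≤ X * a := mul_nonneg (by linarith) (by linarith)
    linarith
  · have hu : 1 ≤ L - 2 := by linarith
    have e1 := two_c2 K
    have e2 := two_c2 L
    have h3 : (L - 2) * K ≤ X + c2 L := by
      have h5 : 0 ≤ (K - (L - 2)) * ((K - (L - 2)) - 1) := by
        rcases le_or_gt (K - (L - 2)) 0 with h | h
        · nlinarith
        · nlinarith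
      nlinarith
    have h4 : (L - 2) * η ≤ (L - 2) * (K * X) :=
      mul_le_mul_of_nonneg_left h1 (by linarith)
    have h6 : ((L - 2) * K) * X ≤ (X + c2 L) * X :=
      mul_le_mul_of_nonneg_right h3 (by linarith)
    have h7 : (X + c2 L) * X ≤ (X + c2 L) * a :=
      mul_le_mul_of_nonneg_left (by linarith) (by linarith)
    have h8 : (L - 2) * (K * X) = ((L - 2) * K) * X := by ring
    have h9 : (X + c2 L) * a = X * a + a * c2 L := by ring
    linarith

theorem ext_ev_pos {k δ h P : ℤ} {V : Type} [Fintype V] {G : SimpleGraph V}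
    (E : Ext k δ h P G) (w : V)
    (hMR : (k - δ + Xv G k w) * th G k δ h w
      ≤ Yv G k δ h w * (ev G k δ h w + (Dj k δ - psG G k h) - eI G (PH G w))) :
    1 ≤ ev G k δ h w := by
  by_contra hcon
  push Not at hcon
  have hH3 := ext_H3 E w
  have hb0 : Dj k δ - psG G k h ≤ 0 := by linarith [E.hr]
  have hsum := ev_add_Yv G k δ h w
  have hm0 := eI_nonneg G (PH G w)
  have hH1 : ∀ u v, G.Adj u v → 0 ≤ cc G k δ u v := fun u v => ext_H1 E
  by_cases he : ev G k δ h w = 0
  · have hth := th_ge G w k δ h P E.small hH1 hH3 (by rw [he]) (by linarith)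
    rw [E.val] at hth
    have hY : Yv G k δ h w = k - δ + Xv G k w := by linarith
    rw [hY, he] at hMR
    have h1 : (k - δ + Xv G k w) * 1 ≤ (k - δ + Xv G k w) * th G k δ h w :=
      mul_le_mul_of_nonneg_left (by linarith) (by linarith)
    have h2 : (k - δ + Xv G k w) * (0 + (Dj k δ - psG G k h) - eI G (PH G w)) ≤ 0 :=
      mul_nonpos_of_nonneg_of_nonpos (by linarith) (by linarith)
    linarith
  · have hη : 1 ≤ - ev G k δ h w := by
      have : ev G k δ h w ≤ 0 := by linarith
      rcases lt_or_eq_of_le this with h | h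
      · linarith
      · exact absurd h he
    have hXb : 1 ≤ Xv G k w + (Dj k δ - psG G k h) := by
      by_contra hc
      push Not at hc
      have := ext_clone1 E w (by linarith) (by linarith)
      linarith
    -- the twin
    obtain ⟨K, hK, hKv, hKlt⟩ := exists_valid_lt (k := k) (δ := δ)
      (p := psG G k h - Xv G k w) E.hδ (by linarith)
    have hcl := ext_clone E w hKv
    rw [phi_sub, phi_clone, pos_clone] at hcl
    have hval : phi k δ h (Fintype.card V) (em G) (tm G) = P := E.val
    have hps : pos k h (Fintype.card V) (em G) = psG G k h := rfl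
    have hXe : (Fintype.card V : ℤ) - k - dg G w = Xv G k w := rfl
    have hYe : ((Fintype.card V : ℤ) - k - δ - 1) * dg G w - eI G (NG G w)
        - (((Fintype.card V : ℤ) - 1) * (Fintype.card V - δ - 1) - c2 (Fintype.card V - 1)
          + c2 δ - h * c2 (k + 1)) = Yv G k δ h w := rfl
    have hee : ((Fintype.card V : ℤ) - δ - dg G w) - Yv G k δ h w = ev G k δ h w := rfl
    rw [hval, hps, hXe, hYe, hee] at hcl
    have hDK := Dj_sub k δ (K - 1)
    rw [show δ - (K - 1) = δ - K + 1 by ring, show K - 1 + 1 = K by ring] at hDK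
    rw [hDK] at hKlt
    -- the neighbourhood graph
    obtain ⟨L, hL, hLv, -⟩ := exists_valid_lt (k := k) (δ := δ - Xv G k w)
      (p := Dj k (δ - Xv G k w) + ev G k δ h w) (by linarith) (by linarith)
    have hcard : Fintype.card ((NG G w : Finset V) : Set V) < Fintype.card V := by
      have h1 := card_induce_NG G w
      have h2 := dg_lt G w
      have : (Fintype.card ((NG G w : Finset V) : Set V) : ℤ) < Fintype.card V := by linarith
      exact_mod_cast this
    have hsm := E.small _ (G.induce ((NG G w : Finset V) : Set V)) (h - 1)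
      (δ - Xv G k w - L) hcard (by rw [psG_nbr, id_pos]; exact hLv)
    rw [phG_nbr, phi_sub, id_pos] at hsm
    have hkv : phi k (δ - Xv G k w) (h - 1) (dg G w) (eI G (NG G w)) (tI G (NG G w))
        = - kv G k δ h w := by unfold kv; ring
    rw [hkv] at hsm
    have h1 := id_one G k δ h w
    rw [E.val] at h1
    have h2 := Cent2_nonneg G k δ w hH1
    have h3 := tI_nonneg G (PH G w)
    have h4 := id_four G k δ h w
    rw [mx_eq G k δ w] at h4
    have hq : 0 ≤ ∑ x ∈ NG G w, Nx G w x := Finset.sum_nonneg fun x _ => Nx_nonneg G w x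
    have hcK := c2_nonneg K
    have hcK3 : 0 ≤ c3 (K + 1) := c3_nonneg (by linarith)
    have hM : 1 ≤ k - δ := by linarith [E.hδ]
    -- abbreviations
    obtain ⟨X, hX⟩ : ∃ X, X = Xv G k w := ⟨_, rfl⟩
    obtain ⟨a, ha⟩ : ∃ a, a = k - δ + Xv G k w := ⟨_, rfl⟩
    obtain ⟨η, hηe⟩ : ∃ η, η = - ev G k δ h w := ⟨_, rfl⟩
    obtain ⟨b, hb⟩ : ∃ b, b = Dj k δ - psG G k h := ⟨_, rfl⟩
    obtain ⟨m, hm⟩ : ∃ m, m = eI G (PH G w) := ⟨_, rfl⟩
    have hev : ev G k δ h w = -η := by linarith
    have hYa : Yv G k δ h w = a + η := by linarith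
    rw [← ha, ← hb, ← hm, hev, hYa] at hMR
    rw [← ha, ← hX, ← hb, ← hm, hev] at h4
    rw [← hb] at hXb hb0
    rw [← hX] at hXb
    have hX1 : 1 ≤ X := by linarith
    have haX : X + 1 ≤ a := by rw [ha, ← hX]; linarith
    have hηK : η ≤ K * X := by
      have e1 : psG G k h - X - Dj k δ = -(X + b) := by rw [hb]; ring
      rw [← hX, e1, hev, ← hb] at hcl
      have e2 : 0 ≤ (k - δ) * c2 K := mul_nonneg (by linarith) hcK
      have e3 : K * (X + b) ≤ K * X := mul_le_mul_of_nonneg_left (by linarith) (by linarith)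
      nlinarith
    have hKX : c2 K < X := by
      rw [← hX] at hKlt
      have e1 : psG G k h - X = Dj k δ - b - X := by rw [hb]; ring
      have e2 : 0 ≤ (K - 1) * (k - δ) := mul_nonneg (by linarith) (by linarith)
      linarith
    have hkey := arith_os hX1 haX hK hL (by linarith : 1 ≤ η) hηK hKX
    have hos : 1 - P - (L * η - a * c2 L - c3 (L + 1)) ≤ kv G k δ h w := by
      have e1 : k - (δ - Xv G k w) = a := by rw [ha]; ring
      have e2 : Dj k (δ - Xv G k w) + ev G k δ h w - Dj k (δ - Xv G k w) = -η := by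
        rw [hηe]; ring
      rw [e1, e2] at hsm
      linarith
    have hth : 1 - (L * η - a * c2 L - c3 (L + 1)) ≤ th G k δ h w := by linarith
    -- finish
    obtain ⟨os, hosd⟩ : ∃ os, os = L * η - a * c2 L - c3 (L + 1) := ⟨_, rfl⟩
    rw [← hosd] at hkey hth
    have f1 : a * (1 - os) ≤ a * th G k δ h w := mul_le_mul_of_nonneg_left hth (by linarith)
    have f2 : 0 ≤ η * (η - b + m) := mul_nonneg (by linarith) (by linarith)
    have f5 : (a + η) * (-η + b - m) = a * (-η + b - m) - η * (η - b + m) := by ring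
    have f3 : a * (1 - os) ≤ a * (-η + b - m) := by linarith
    have f4 : 1 - os ≤ -η + b - m := by
      by_contra hc
      push Not at hc
      have : a * (-η + b - m) < a * (1 - os) := by
        apply mul_lt_mul_of_pos_left hc (by linarith)
      linarith
    linarith

end Pool.Agent.Helper72.LS.P12
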