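import Pool.Agent.Helper72.LS.LocDef
import Pool.Agent.Helper72.LS.KvGe

/-!
First bounds of the main lemma.
-/

namespace Pool.Agent.Helper72.LS.P13

open Finset
open scoped Classical
open Pool.Agent.Helper72.LS

theorem loc_kv {k δ h P : ℤ} {V : Type} [Fintype V] {G : SimpleGraph V} {w : V}
    (E : Loc k δ h P G w) : 1 - P ≤ kv G k δ h w :=
  kv_ge G w k δ h P E.small E.hX0 (by linarith [E.he]) (by linarith [E.hY])

theorem loc_strict {k δ h P : ℤ} {V : Type} [Fintype V] {G : SimpleGraph V} {w : V}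
    (E : Loc k δ h P G w) :
    th G k δ h w + 1 ≤ ev G k δ h w + (Dj k δ - psG G k h) - eI G (PH G w) := by
  have h1 := th_ge G w k δ h P E.small E.H1 E.hX0 (by linarith [E.he]) (by linarith [E.hY])
  have h2 := E.hMR
  have h3 := E.val
  have h4 := ev_add_Yv G k δ h w
  have h5 := E.he
  have h6 := E.hY
  rw [← h4] at h2
  obtain ⟨s, hs⟩ : ∃ s, s = ev G k δ h w + (Dj k δ - psG G k h) - eI G (PH G w) := ⟨_, rfl⟩
  rw [← hs] at h2 ⊢
  obtain ⟨e, he⟩ : ∃ e, e = ev G k δ h w := ⟨_, rfl⟩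
  obtain ⟨Y, hY⟩ : ∃ Y, Y = Yv G k δ h w := ⟨_, rfl⟩
  obtain ⟨t, ht⟩ : ∃ t, t = th G k δ h w := ⟨_, rfl⟩
  rw [← he, ← hY, ← ht] at h2
  rw [← he] at h5
  rw [← hY] at h6
  rw [← ht] at h1 ⊢
  by_contra hcon
  push Not at hcon
  have hst : s ≤ t := by linarith
  have ht1 : 1 ≤ t := by linarith
  rcases le_or_gt s 0 with hs0 | hs0
  · have f1 : Y * s ≤ 0 := mul_nonpos_of_nonneg_of_nonpos (by linarith) hs0
    have f2 : (e + Y) * 1 ≤ (e + Y) * t := mul_le_mul_of_nonneg_left ht1 (by linarith)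
    linarith
  · have f1 : (e + Y) * s ≤ (e + Y) * t := mul_le_mul_of_nonneg_left hst (by linarith)
    have f2 : 1 * s ≤ e * s := mul_le_mul_of_nonneg_right h5 (by linarith)
    linarith

theorem loc_kv_edge {k δ h P : ℤ} {V : Type} [Fintype V] {G : SimpleGraph V} {w : V}
    (E : Loc k δ h P G w) {x x' : V} (hx : G.Adj w x) (hx' : G.Adj w x') (hxx' : G.Adj x x') :
    1 - P + (k - δ + Xv G k w - 1) - cc G k δ w x - cc G k δ w x' ≤ kv G k δ h w := by
  obtain ⟨Γ, he, ht⟩ := op_del_edge_in G (NG G w) (mem_NG.2 hx) (mem_NG.2 hx') hxx'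
  have hcn : co G w x + co G w x' - dg G w ≤ ∑ u ∈ NG G w, ad G x u * ad G x' u := by
    have h1 : co G w x + co G w x' - dg G w = ∑ u ∈ NG G w, (ad G x u + ad G x' u - 1) := by
      rw [sum_NG]
      unfold co dg
      rw [← Finset.sum_add_distrib, ← Finset.sum_sub_distrib]
      refine Finset.sum_congr rfl fun u _ => ?_
      ring
    rw [h1]
    refine Finset.sum_le_sum fun u _ => ?_
    have a1 := ad_le_one G x u
    have a2 := ad_le_one G x' u
    nlinarith
  have hc : Fintype.card ((NG G w : Finset V) : Set V) < Fintype.card V := by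
    have h1 := card_induce_NG G w
    have h2 := dg_lt G w
    have : (Fintype.card ((NG G w : Finset V) : Set V) : ℤ) < Fintype.card V := by linarith
    exact_mod_cast this
  have hsum := ev_add_Yv G k δ h w
  have hpos := id_pos G k δ h w
  have hps : psG Γ k (h - 1) = Dj k (δ - Xv G k w) + ev G k δ h w - 1 := by
    unfold psG
    rw [card_induce_NG, he, ← hpos]
    unfold pos
    ring
  have h3 := E.small _ Γ (h - 1) (δ - Xv G k w) hc (by
    rw [hps]
    have h5 := E.he
    have h6 := E.hY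
    have h7 := E.hX0
    refine ⟨by linarith, by linarith, fun _ => ?_⟩
    rw [Dj_succ]
    linarith)
  unfold phG at h3
  rw [card_induce_NG, he, ht] at h3
  unfold kv
  unfold phi at h3 ⊢
  unfold cc Xv at *
  linarith

end Pool.Agent.Helper72.LS.P13
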