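import Pool.Agent.Helper72.LS.L5a
import Pool.Agent.Helper72.LS.KvGe

/-!
The main lemma.
-/

namespace Pool.Agent.Helper72.LS.P14

open Finset
open scoped Classical
open Pool.Agent.Helper72.LS

/-- the number attached to a pair of non-neighbours -/
noncomputable def ae {V : Type} [Fintype V] (G : SimpleGraph V) (k δ : ℤ) (w y y' : V) : ℤ :=
  cc G k δ y y' + ∑ u ∈ PH G w, ad G y u * ad G y' u

/-- the degree inside the non-neighbourhood -/
noncomputable def rr {V : Type} [Fintype V] (G : SimpleGraph V) (w y : V) : ℤ :=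
  ∑ u ∈ PH G w, ad G y u

theorem cn_nonneg {V : Type} [Fintype V] (G : SimpleGraph V) (w y y' : V) :
    0 ≤ ∑ u ∈ PH G w, ad G y u * ad G y' u :=
  Finset.sum_nonneg fun u _ => mul_nonneg (ad_nonneg G y u) (ad_nonneg G y' u)

theorem cn_le_rr {V : Type} [Fintype V] (G : SimpleGraph V) {w y y' : V} (hy : y ∈ PH G w)
    (hyy' : G.Adj y y') : (∑ u ∈ PH G w, ad G y u * ad G y' u) + 1 ≤ rr G w y' := by
  unfold rr
  have h1 : ∑ u ∈ PH G w, ad G y' u
      = ad G y' y + ∑ u ∈ (PH G w).erase y, ad G y' u := by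
    rw [Finset.add_sum_erase _ _ hy]
  have h2 : ∑ u ∈ PH G w, ad G y u * ad G y' u
      = ad G y y * ad G y' y + ∑ u ∈ (PH G w).erase y, ad G y u * ad G y' u := by
    rw [Finset.add_sum_erase (PH G w) (fun u => ad G y u * ad G y' u) hy]
  rw [h1, h2, ad_self, ad_pos hyy'.symm]
  have h3 : ∑ u ∈ (PH G w).erase y, ad G y u * ad G y' u
      ≤ ∑ u ∈ (PH G w).erase y, ad G y' u := by
    apply Finset.sum_le_sum
    intro u _
    have h4 := ad_le_one G y u
    have h5 := ad_nonneg G y' u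
    nlinarith
  linarith

theorem cn_symm {V : Type} [Fintype V] (G : SimpleGraph V) (w y y' : V) :
    ∑ u ∈ PH G w, ad G y u * ad G y' u = ∑ u ∈ PH G w, ad G y' u * ad G y u :=
  Finset.sum_congr rfl fun _ _ => mul_comm _ _

theorem ae_symm {V : Type} [Fintype V] (G : SimpleGraph V) (k δ : ℤ) (w y y' : V) :
    ae G k δ w y y' = ae G k δ w y' y := by
  unfold ae
  rw [cc_symm, cn_symm]

/-- the slack of a neighbour `x` of `w` not adjacent to the non-neighbour `y` -/
theorem cc_le_rr {k δ h P : ℤ} {V : Type} [Fintype V] {G : SimpleGraph V} {w : V}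
    (E : Loc k δ h P G w) {x y : V} (hy : y ∈ PH G w) (hx : x ∈ Qs G w y) :
    cc G k δ w x ≤ rr G w y := by
  rw [mem_Qs] at hx
  rw [mem_PH] at hy
  have hne : x ≠ y := by
    rintro rfl
    exact hy hx.1
  have h1 := E.H2 x y hne (fun h => hx.2 h.symm)
  have h2 := loc_co_le G w x y
  unfold cc at h1 ⊢
  unfold rr
  linarith

theorem th_ge_cc {k δ h P : ℤ} {V : Type} [Fintype V] {G : SimpleGraph V} {w : V}
    (E : Loc k δ h P G w) {y y' : V} (hy : y ∈ PH G w) (hy' : y' ∈ PH G w)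
    (hyy' : G.Adj y y') :
    phG G k δ h + cc G k δ y y' + kv G k δ h w ≤ th G k δ h w := by
  have h1 := id_one G k δ h w
  have h2 := loc_cent G k δ w E.H1 hy hy' hyy'
  have h3 := tI_nonneg G (PH G w)
  linarith

theorem th_ge_kv {k δ h P : ℤ} {V : Type} [Fintype V] {G : SimpleGraph V} {w : V}
    (E : Loc k δ h P G w) :
    phG G k δ h + kv G k δ h w ≤ th G k δ h w := by
  have h1 := id_one G k δ h w
  have h2 := Cent2_nonneg G k δ w E.H1
  have h3 := tI_nonneg G (PH G w)
  linarith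

theorem step_one_aux {k δ h P : ℤ} {V : Type} [Fintype V] {G : SimpleGraph V} {w : V}
    (E : Loc k δ h P G w) {x x' y y' : V} (hx : G.Adj w x) (hy : y ∈ PH G w)
    (hy' : y' ∈ PH G w) (hyy' : G.Adj y y') (hc : cc G k δ w x < ae G k δ w y y')
    (hx' : x' ∈ Qs G w y) (hxx' : G.Adj x x') : False := by
  have h1 := cc_le_rr E hy hx'
  have h2 := loc_kv_edge E hx ((mem_Qs.1 hx').1) hxx'
  have h3 := th_ge_cc E hy hy' hyy'
  have h4 := loc_deg_le G w hy hy' hyy'
  have h5 := cn_le_rr G (y' := y') hy hyy'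
  have h6 := loc_strict E
  have h7 := ev_add_Yv G k δ h w
  have h8 := E.val'
  have h9 := E.hY
  unfold ae at hc
  unfold rr at h1 h5
  linarith

/-- step one of the main lemma -/
theorem step_one {k δ h P : ℤ} {V : Type} [Fintype V] {G : SimpleGraph V} {w : V}
    (E : Loc k δ h P G w) {x y y' : V} (hx : G.Adj w x) (hy : y ∈ PH G w)
    (hy' : y' ∈ PH G w) (hyy' : G.Adj y y') : ae G k δ w y y' ≤ cc G k δ w x := by
  by_contra hcon
  push Not at hcon
  have h1 := loc_union G w y y'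
  have h2 := loc_sdiff G w x
  have hlt : ((NG G w).filter (fun u => ¬ G.Adj x u)).card < (Qs G w y ∪ Qs G w y').card := by
    have : (((NG G w).filter (fun u => ¬ G.Adj x u)).card : ℤ)
        < ((Qs G w y ∪ Qs G w y').card : ℤ) := by
      rw [h1, h2]
      unfold ae cc at hcon
      linarith
    exact_mod_cast this
  obtain ⟨x', hx'1, hx'2⟩ := Finset.exists_mem_notMem_of_card_lt_card hlt
  rw [Finset.mem_filter, mem_NG] at hx'2
  rw [Finset.mem_union] at hx'1
  have hwx' : G.Adj w x' := by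
    rcases hx'1 with h | h
    · exact (mem_Qs.1 h).1
    · exact (mem_Qs.1 h).1
  have hxx' : G.Adj x x' := by
    by_contra hn
    exact hx'2 ⟨hwx', hn⟩
  rcases hx'1 with h | h
  · exact step_one_aux E hx hy hy' hyy' hcon h hxx'
  · rw [ae_symm] at hcon
    exact step_one_aux E hx hy' hy hyy'.symm hcon h hxx'

/-- the sum of the `ae` -/
theorem sum_ae_le {V : Type} [Fintype V] (G : SimpleGraph V) (k δ : ℤ) (w : V) (A : ℤ)
    (hA : ∀ y ∈ PH G w, ∀ y' ∈ PH G w, G.Adj y y' → ae G k δ w y y' ≤ A) :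
    Cent2 G k δ w + 6 * tI G (PH G w) ≤ 2 * (A * eI G (PH G w)) := by
  rw [← loc_sum]
  have h1 := two_eI G (PH G w)
  have h2 : 2 * (A * eI G (PH G w)) = A * ∑ x ∈ PH G w, ∑ y ∈ PH G w, ad G x y := by
    rw [← h1]; ring
  rw [h2, Finset.mul_sum]
  refine Finset.sum_le_sum fun y hy => ?_
  rw [Finset.mul_sum]
  refine Finset.sum_le_sum fun y' hy' => ?_
  unfold ad
  split_ifs with h
  · have := hA y hy y' hy' h
    unfold ae ad at this
    linarith
  · simp

theorem loc_false_le {k δ h P : ℤ} {V : Type} [Fintype V] {G : SimpleGraph V} {w : V}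
    (E : Loc k δ h P G w) (hX : Xv G k w ≤ 0) : False := by
  -- a common bound
  obtain ⟨A, hA1, hA2⟩ : ∃ A : ℤ,
      (∀ y ∈ PH G w, ∀ y' ∈ PH G w, G.Adj y y' → ae G k δ w y y' ≤ A) ∧
      (0 ≤ A ∧ ∀ x ∈ NG G w, A ≤ cc G k δ w x) := by
    by_cases hex : ((PH G w ×ˢ PH G w).filter (fun p => G.Adj p.1 p.2)).Nonempty
    · obtain ⟨p, hp, hmax⟩ := Finset.exists_max_image _ (fun p => ae G k δ w p.1 p.2) hex
      rw [Finset.mem_filter, Finset.mem_product] at hp
      refine ⟨ae G k δ w p.1 p.2, ?_, ?_, ?_⟩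
      · intro y hy y' hy' hyy'
        exact hmax (y, y') (by
          rw [Finset.mem_filter, Finset.mem_product]
          exact ⟨⟨hy, hy'⟩, hyy'⟩)
      · unfold ae
        have h1 := E.H1 _ _ hp.2
        have h2 := cn_nonneg G w p.1 p.2
        linarith
      · intro x hx
        exact step_one E (mem_NG.1 hx) hp.1.1 hp.1.2 hp.2
    · rw [Finset.not_nonempty_iff_eq_empty] at hex
      refine ⟨0, ?_, le_refl _, ?_⟩
      · intro y hy y' hy' hyy'
        exfalso
        have : (y, y') ∈ (PH G w ×ˢ PH G w).filter (fun p => G.Adj p.1 p.2) := by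
          rw [Finset.mem_filter, Finset.mem_product]
          exact ⟨⟨hy, hy'⟩, hyy'⟩
        rw [hex] at this
        simp at this
      · intro x hx
        exact E.H1 _ _ (mem_NG.1 hx)
  obtain ⟨hA0, hA2⟩ := hA2
  have h1 := id_K G k δ h w
  have h2 := sum_ae_le G k δ w A hA1
  have h3 := tI_nonneg G (PH G w)
  have h4 : A * ∑ x ∈ NG G w, Nx G w x ≤ ∑ x ∈ NG G w, Nx G w x * cc G k δ w x := by
    rw [Finset.mul_sum]
    refine Finset.sum_le_sum fun x hx => ?_
    rw [mul_comm]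
    exact mul_le_mul_of_nonneg_left (hA2 x hx) (Nx_nonneg G w x)
  have h5 : 0 ≤ ∑ y ∈ PH G w, eI G (Qs G w y) := Finset.sum_nonneg fun y _ => eI_nonneg G _
  have h6 := id_four G k δ h w
  rw [mx_eq G k δ w] at h6
  have h7 := loc_strict E
  have h8 := th_ge_kv E
  have h9 := loc_kv E
  have h10 := E.val
  have h11 := E.hX0
  have h12 := E.hY
  have h13 := eI_nonneg G (PH G w)
  have h14 : Xv G k w * (k - δ + Xv G k w) ≤ 0 :=
    mul_nonpos_of_nonpos_of_nonneg hX (by linarith)
  have h15 : Xv G k w * Yv G k δ h w ≤ 0 :=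
    mul_nonpos_of_nonpos_of_nonneg hX (by linarith)
  have h16 : A * eI G (PH G w) ≤ A * ∑ x ∈ NG G w, Nx G w x := by
    apply mul_le_mul_of_nonneg_left _ hA0
    linarith
  linarith

end Pool.Agent.Helper72.LS.P14
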