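import Pool.Agent.Helper72.LS.P14

/-!
The main lemma, excess one.
-/

namespace Pool.Agent.Helper72.LS.P15

open Finset
open scoped Classical
open Pool.Agent.Helper72.LS
open Pool.Agent.Helper72.LS.P14

theorem Nx_ge_one {V : Type} [Fintype V] (G : SimpleGraph V) {w x y : V} (hy : y ∈ PH G w)
    (hx : x ∈ Qs G w y) : 1 ≤ Nx G w x := by
  unfold Nx
  have h1 : (1 - ad G x y) ≤ ∑ u ∈ PH G w, (1 - ad G x u) := by
    apply Finset.single_le_sum (f := fun u => 1 - ad G x u) _ hy
    intro u _
    have := ad_le_one G x u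
    linarith
  have h2 : ad G x y = 0 := by
    apply ad_neg
    intro h
    exact (mem_Qs.1 hx).2 h.symm
  linarith

theorem loc_false_one {k δ h P : ℤ} {V : Type} [Fintype V] {G : SimpleGraph V} {w : V}
    (E : Loc k δ h P G w) (hX : Xv G k w = 1) : False := by
  have h1 := id_K G k δ h w
  have h6 := id_four G k δ h w
  rw [mx_eq G k δ w] at h6
  have h7 := loc_strict E
  have h8 := th_ge_kv E
  have h9 := loc_kv E
  have h10 := E.val
  have h10' := E.val'
  have h12 := E.hY
  have h12' := E.hY'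
  have hsum := ev_add_Yv G k δ h w
  have hq : 0 ≤ ∑ x ∈ NG G w, Nx G w x := Finset.sum_nonneg fun x _ => Nx_nonneg G w x
  rw [hX] at h1 h6 hsum
  have hm : 1 ≤ eI G (PH G w) := by linarith
  have hmk : eI G (PH G w) ≤ k := by linarith [E.hδ0]
  -- the best edge
  have hex : ((PH G w ×ˢ PH G w).filter (fun p => G.Adj p.1 p.2)).Nonempty := by
    rw [Finset.nonempty_iff_ne_empty]
    intro hemp
    have h2 := two_eI G (PH G w)
    have h3 : ∑ x ∈ PH G w, ∑ y ∈ PH G w, ad G x y = 0 := by
      apply Finset.sum_eq_zero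
      intro x hx
      apply Finset.sum_eq_zero
      intro y hy
      apply ad_neg
      intro hxy
      have : (x, y) ∈ (PH G w ×ˢ PH G w).filter (fun p => G.Adj p.1 p.2) := by
        rw [Finset.mem_filter, Finset.mem_product]
        exact ⟨⟨hx, hy⟩, hxy⟩
      rw [hemp] at this
      simp at this
    linarith
  obtain ⟨p, hp, hmax⟩ := Finset.exists_max_image _ (fun p => ae G k δ w p.1 p.2) hex
  rw [Finset.mem_filter, Finset.mem_product] at hp
  obtain ⟨y, y'⟩ := p
  obtain ⟨⟨hy, hy'⟩, hyy'⟩ := hp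
  simp only at hy hy' hyy' hmax
  obtain ⟨A, hA⟩ : ∃ A, A = ae G k δ w y y' := ⟨_, rfl⟩
  have hA1 : ∀ z ∈ PH G w, ∀ z' ∈ PH G w, G.Adj z z' → ae G k δ w z z' ≤ A := by
    intro z hz z' hz' hzz'
    rw [hA]
    exact hmax (z, z') (by
      rw [Finset.mem_filter, Finset.mem_product]
      exact ⟨⟨hz, hz'⟩, hzz'⟩)
  have hcc := E.H1 _ _ hyy'
  have hA0 : 0 ≤ A := by
    rw [hA]
    unfold ae
    have h2 := cn_nonneg G w y y'
    linarith
  have h2 := sum_ae_le G k δ w A hA1
  have hT := tI_nonneg G (PH G w)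
  -- degrees in the non-neighbourhood
  have hdeg := loc_deg_le G w hy hy' hyy'
  have hcn := cn_le_rr G (y' := y') hy hyy'
  have hcn' := cn_le_rr G (y' := y) hy' hyy'.symm
  have hcnn := cn_nonneg G w y' y
  have hthc := th_ge_cc E hy hy' hyy'
  have hAe : A + 1 ≤ ev G k δ h w := by
    rw [hA]
    unfold ae
    unfold rr at hcn hcn'
    linarith
  -- the set B
  obtain ⟨B, hB⟩ : ∃ B, B = Qs G w y ∪ Qs G w y' := ⟨_, rfl⟩
  have hBN : B ⊆ NG G w := by
    intro x hx
    rw [hB, Finset.mem_union] at hx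
    rw [mem_NG]
    rcases hx with h | h
    · exact (mem_Qs.1 h).1
    · exact (mem_Qs.1 h).1
  have hBcard : (B.card : ℤ) = δ + A := by
    have h3 := loc_union G w y y'
    rw [hB, h3, hA]
    unfold ae cc
    unfold Xv at hX
    linarith
  -- no cross edges
  have hcross : ∀ x ∈ Qs G w y \ Qs G w y', ∀ x' ∈ Qs G w y' \ Qs G w y, ¬ G.Adj x x' := by
    intro x hx x' hx' hxx'
    rw [Finset.mem_sdiff] at hx hx'
    have e1 := cc_le_rr E hy hx.1
    have e2 := cc_le_rr E hy' hx'.1
    have e3 := loc_kv_edge E (mem_Qs.1 hx.1).1 (mem_Qs.1 hx'.1).1 hxx'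
    rw [hX] at e3
    unfold rr at e1 e2
    linarith
  have heB : eI G B ≤ eI G (Qs G w y) + eI G (Qs G w y') := by
    rw [hB]
    exact loc_eI_union G _ _ hcross
  have hQ : eI G (Qs G w y) + eI G (Qs G w y') ≤ ∑ z ∈ PH G w, eI G (Qs G w z) := by
    have hsub : ({y, y'} : Finset V) ⊆ PH G w := by
      intro z hz
      rw [Finset.mem_insert, Finset.mem_singleton] at hz
      rcases hz with rfl | rfl
      · exact hy
      · exact hy'
    have e1 := Finset.sum_le_sum_of_subset_of_nonneg (f := fun z => eI G (Qs G w z)) hsub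
      (fun z _ _ => eI_nonneg G _)
    rw [Finset.sum_pair hyy'.ne] at e1
    exact e1
  -- the sum over B
  have hsumB : ∑ x ∈ B, cc G k δ w x ≤ ∑ x ∈ NG G w, Nx G w x * cc G k δ w x := by
    calc ∑ x ∈ B, cc G k δ w x ≤ ∑ x ∈ B, Nx G w x * cc G k δ w x := by
          refine Finset.sum_le_sum fun x hx => ?_
          have e1 : 1 ≤ Nx G w x := by
            rw [hB, Finset.mem_union] at hx
            rcases hx with h | h
            · exact Nx_ge_one G hy h
            · exact Nx_ge_one G hy' h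
          have e2 := E.H1 w x (mem_NG.1 (hBN hx))
          nlinarith
      _ ≤ ∑ x ∈ NG G w, Nx G w x * cc G k δ w x := by
          apply Finset.sum_le_sum_of_subset_of_nonneg hBN
          intro x hx _
          exact mul_nonneg (Nx_nonneg G w x) (E.H1 w x (mem_NG.1 hx))
  -- the new graph
  obtain ⟨Γ, hΓe, hΓt⟩ := op_add_vertex_in G (NG G w) B hBN
  have hdw : dg G w = Fintype.card V - k - 1 := by
    unfold Xv at hX
    linarith
  have hcardΓ : (Fintype.card (Option ((NG G w : Finset V) : Set V)) : ℤ)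
      = Fintype.card V - k := by
    rw [Fintype.card_option, Nat.cast_add, Nat.cast_one, card_induce_NG]
    linarith
  have hlt : Fintype.card (Option ((NG G w : Finset V) : Set V)) < Fintype.card V := by
    have : (Fintype.card (Option ((NG G w : Finset V) : Set V)) : ℤ) < Fintype.card V := by
      rw [hcardΓ]
      linarith [E.hk]
    exact_mod_cast this
  have hco : ∑ x ∈ B, ∑ z ∈ NG G w, ad G x z
      = (δ + A) * (Fintype.card V - k - δ - 1) - ∑ x ∈ B, cc G k δ w x := by
    have e1 : ∀ x ∈ B, ∑ z ∈ NG G w, ad G x z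
        = ((Fintype.card V : ℤ) - k - δ - 1) - cc G k δ w x := by
      intro x _
      unfold cc co
      rw [sum_NG]
      ring
    rw [Finset.sum_congr rfl e1, Finset.sum_sub_distrib]
    simp only [Finset.sum_const, nsmul_eq_mul]
    rw [hBcard]
  have hΓe' : em Γ = eI G (NG G w) + (Fintype.card V - k - 1) - (δ + A) := by
    rw [hΓe, card_NG, hBcard, hdw]
    ring
  have hΓt' : tm Γ = tI G (NG G w) + (eI G (NG G w)
      - ((δ + A) * (Fintype.card V - k - δ - 1) - ∑ x ∈ B, cc G k δ w x) + eI G B) := by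
    rw [hΓt, hco]
  have hps : psG Γ k (h - 1) = Dj k δ + ev G k δ h w - 1 - A := by
    unfold psG
    rw [hcardΓ, hΓe', pos_Lz]
    unfold ev Yv
    rw [hdw]
  have hph : phG Γ k δ (h - 1) = - kv G k δ h w + Yv G k δ h w + A * k
      - (∑ x ∈ B, cc G k δ w x) - eI G B := by
    unfold phG
    rw [hcardΓ, hΓe', hΓt', phi_Lz]
    unfold kv Yv
    rw [hX, hdw]
    ring
  have hsm := E.small _ Γ (h - 1) δ hlt (by
    rw [hps]
    refine ⟨E.hδ, by linarith, fun _ => ?_⟩
    rw [Dj_succ]
    linarith)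
  rw [hph] at hsm
  have hfin : A * eI G (PH G w) ≤ A * k := mul_le_mul_of_nonneg_left hmk hA0
  linarith

end Pool.Agent.Helper72.LS.P15
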